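import Mathlib

/-! Definitions for the `q`-Delannoy congruence (problem MP_c68aab_nt). -/

open Finset

namespace Pool.Agent.H94.QDel

variable {R : Type*} [CommRing R]

/-- The Gaussian binomial coefficient `[n, k]_q` at an element `q` of a commutative ring, by the
`q`-Pascal rule `[n+1, k+1] = [n, k] + q^{k+1} [n, k+1]`.  It satisfies the product formula
`[n, k]_q ∏_{i=1}^{k} (1 - q^i) = ∏_{i=1}^{k} (1 - q^{n-i+1})`: see `gauss_prod`. -/
def gauss (q : R) : ℕ → ℕ → R
  | _, 0 => 1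
  | 0, _ + 1 => 0
  | n + 1, k + 1 => gauss q n k + q ^ (k + 1) * gauss q n (k + 1)

/-- The `q`-integer `[n] = 1 + q + ... + q^(n-1)`. -/
def qint (q : R) (n : ℕ) : R := ∑ i ∈ range n, q ^ i

/-- The `q`-Delannoy number
`D_q(m, n) = ∑_{j=0}^{n} q^{j(j-1)/2} [n, j]_q [m+n-j, n]_q`. -/
def qDelannoy (q : R) (m n : ℕ) : R :=
  ∑ j ∈ range (n + 1), q ^ (j * (j - 1) / 2) * gauss q n j * gauss q (m + n - j) n

open LaurentPolynomial in
/-- The sum `S_p(m) = ∑_{j=0}^{p-1} [2j+1] q^{-j} D_q(m,j) D_{q^{-1}}(m,j)` in `ℤ[q, q⁻¹]`,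
where `q = T 1` and `q⁻¹ = T (-1)`. -/
noncomputable def S (p m : ℕ) : ℤ[T;T⁻¹] :=
  ∑ j ∈ range p, qint (T 1) (2 * j + 1) * T (-(j : ℤ)) *
    (qDelannoy (T 1) m j * qDelannoy (T (-1)) m j)

@[simp] lemma gauss_zero_right (q : R) (n : ℕ) : gauss q n 0 = 1 := by
  cases n <;> rfl

@[simp] lemma gauss_zero_succ (q : R) (k : ℕ) : gauss q 0 (k + 1) = 0 := rfl

lemma gauss_succ_succ (q : R) (n k : ℕ) :
    gauss q (n + 1) (k + 1) = gauss q n k + q ^ (k + 1) * gauss q n (k + 1) := rfl

lemma gauss_eq_zero (q : R) : ∀ n k : ℕ, n < k → gauss q n k = 0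
  | 0, 0, h => absurd h (lt_irrefl _)
  | 0, _ + 1, _ => rfl
  | n + 1, 0, h => absurd h (Nat.not_lt_zero _)
  | n + 1, k + 1, h => by
      rw [gauss_succ_succ, gauss_eq_zero q n k (by omega), gauss_eq_zero q n (k + 1) (by omega)]
      ring

@[simp] lemma gauss_self (q : R) (n : ℕ) : gauss q n n = 1 := by
  induction n with
  | zero => rfl
  | succ n ih => rw [gauss_succ_succ, ih, gauss_eq_zero q n (n + 1) (by omega)]; ring

lemma gauss_map {S : Type*} [CommRing S] (f : R →+* S) (q : R) :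
    ∀ n k : ℕ, gauss (f q) n k = f (gauss q n k)
  | 0, 0 => by simp
  | 0, _ + 1 => by simp
  | n + 1, 0 => by simp
  | n + 1, k + 1 => by
      rw [gauss_succ_succ, gauss_succ_succ, gauss_map f q n k, gauss_map f q n (k + 1)]
      simp

/-- the fundamental ratio relation -/
lemma gauss_ratio_k (q : R) : ∀ n k : ℕ,
    (1 - q ^ (k + 1)) * gauss q n (k + 1) = (1 - q ^ (n - k)) * gauss q n k
  | 0, k => by simp
  | n + 1, 0 => by
      have h := gauss_ratio_k q n 0
      rw [gauss_succ_succ]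
      simp only [gauss_zero_right, Nat.sub_zero, zero_add, pow_one, mul_one] at h ⊢
      rw [mul_add, mul_left_comm, h]
      ring
  | n + 1, k + 1 => by
      have h1 := gauss_ratio_k q n k
      have h2 := gauss_ratio_k q n (k + 1)
      rw [gauss_succ_succ, gauss_succ_succ]
      rcases Nat.lt_or_ge n (k + 1) with hlt | hge
      · rw [gauss_eq_zero q n (k + 1) hlt, gauss_eq_zero q n (k + 2) (by omega)]
        have : n + 1 - (k + 1) = 0 := by omega
        rw [this]; ring
      · obtain ⟨d, rfl⟩ := Nat.exists_eq_add_of_le hge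
        have e1 : k + 1 + d - k = d + 1 := by omega
        have e2 : k + 1 + d - (k + 1) = d := by omega
        have e3 : k + 1 + d + 1 - (k + 1) = d + 1 := by omega
        rw [e1] at h1
        rw [e2] at h2
        rw [e3]
        linear_combination (q ^ (k + 1 + 1)) * h2 + h1

lemma gauss_ratio_nk (q : R) (n k : ℕ) :
    (1 - q ^ (k + 1)) * gauss q (n + 1) (k + 1) = (1 - q ^ (n + 1)) * gauss q n k := by
  have h := gauss_ratio_k q n k
  rw [gauss_succ_succ]
  rcases Nat.lt_or_ge n k with hlt | hge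
  · rw [gauss_eq_zero q n k hlt, gauss_eq_zero q n (k + 1) (by omega)]
    ring
  · obtain ⟨d, rfl⟩ := Nat.exists_eq_add_of_le hge
    have e1 : k + d - k = d := by omega
    rw [e1] at h
    linear_combination (q ^ (k + 1)) * h


lemma gauss_pascal' (q : R) (n k : ℕ) :
    gauss q (n + 1) (k + 1) = gauss q n (k + 1) + q ^ (n - k) * gauss q n k := by
  have h := gauss_ratio_k q n k
  rw [gauss_succ_succ]
  linear_combination -h

/-- The product formula `[n, k]_q ∏_{i=1}^{k} (1 - q^i) = ∏_{i=1}^{k} (1 - q^{n-i+1})` for `k ≤ n`. -/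
lemma gauss_prod (q : R) (n : ℕ) : ∀ k : ℕ, k ≤ n →
    gauss q n k * ∏ i ∈ range k, (1 - q ^ (i + 1)) = ∏ i ∈ range k, (1 - q ^ (n - i))
  | 0, _ => by simp
  | k + 1, h => by
    have ih := gauss_prod q n k (by omega)
    have h1 := gauss_ratio_k q n k
    rw [Finset.prod_range_succ, Finset.prod_range_succ, ← ih]
    linear_combination (∏ i ∈ range k, (1 - q ^ (i + 1))) * h1

end Pool.Agent.H94.QDel
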