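import Mathlib
import Pool.Agent.H94.QDelannoyDefs

/-! Proof of the `q`-Delannoy congruence (problem MP_c68aab_nt).

Outline.  `prod_formula` is the product formula
`q^{mn} D_q(m,n) D_{1/q}(m,n) = ∑_k q^{(m-k)(n-k)} [m+k,2k][n+k,2k][2k,k] (-1;q)_k (-q;q)_k`,
proved by showing that both sides, as polynomials in `y = q^n`, satisfy one four-term relation
(`star_P`, `star_F`) and have the same constant term (`key_zero`).  Then the sum over `n` is done
in closed form (`sum_formula`), all terms but one are divisible by `[p]^2` (`term_dvd`), and the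
last one is evaluated with the `q`-Lucas theorem (`gauss_lucas`). -/

open Finset

namespace Pool.Agent.H94.QDel

section ring
variable {R : Type*} [CommRing R]

/-- convolution of two sequences -/
def conv (s t : ℕ → R) (m : ℕ) : R := ∑ x ∈ antidiagonal m, s x.1 * t x.2

lemma conv_comm (s t : ℕ → R) (m : ℕ) : conv s t m = conv t s m := by
  unfold conv
  rw [← Finset.Nat.sum_antidiagonal_swap]
  exact Finset.sum_congr rfl fun x _ => by simp [mul_comm]

lemma conv_right (s t t' : ℕ → R) (c d : R) (h0 : t 0 = t' 0)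
    (h : ∀ j, t (j + 1) - c * t j = t' (j + 1) - d * t' j) (m : ℕ) :
    conv s t (m + 1) - c * conv s t m = conv s t' (m + 1) - d * conv s t' m := by
  unfold conv
  rw [Finset.Nat.sum_antidiagonal_succ', Finset.Nat.sum_antidiagonal_succ']
  simp only [h0]
  have e : ∑ x ∈ antidiagonal m, s x.1 * (t (x.2 + 1) - c * t x.2) =
      ∑ x ∈ antidiagonal m, s x.1 * (t' (x.2 + 1) - d * t' x.2) :=
    Finset.sum_congr rfl fun x _ => by rw [h]
  simp only [mul_sub, Finset.sum_sub_distrib] at e
  have e1 : ∑ x ∈ antidiagonal m, s x.1 * (c * t x.2) = c * ∑ x ∈ antidiagonal m, s x.1 * t x.2 := by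
    rw [Finset.mul_sum]; exact Finset.sum_congr rfl fun x _ => by ring
  have e2 : ∑ x ∈ antidiagonal m, s x.1 * (d * t' x.2) = d * ∑ x ∈ antidiagonal m, s x.1 * t' x.2 := by
    rw [Finset.mul_sum]; exact Finset.sum_congr rfl fun x _ => by ring
  rw [e1, e2] at e
  linear_combination e

lemma conv_left (s s' t : ℕ → R) (c d : R) (h0 : s 0 = s' 0)
    (h : ∀ j, s (j + 1) - c * s j = s' (j + 1) - d * s' j) (m : ℕ) :
    conv s t (m + 1) - c * conv s t m = conv s' t (m + 1) - d * conv s' t m := by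
  rw [conv_comm s t, conv_comm s t, conv_comm s' t, conv_comm s' t]
  exact conv_right t s s' c d h0 h m

lemma conv_scale (q : R) (s t : ℕ → R) (m : ℕ) :
    conv (fun i => q ^ i * s i) (fun j => q ^ j * t j) m = q ^ m * conv s t m := by
  unfold conv
  rw [Finset.mul_sum]
  refine Finset.sum_congr rfl fun x hx => ?_
  have : x.1 + x.2 = m := by simpa using hx
  rw [← this, pow_add]; ring

lemma qDelannoy_eq_conv (q : R) (m n : ℕ) :
    qDelannoy q m n =
      conv (fun j => q ^ (j * (j - 1) / 2) * gauss q n j) (fun i => gauss q (n + i) n) m := by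
  unfold qDelannoy conv
  rw [Finset.Nat.sum_antidiagonal_eq_sum_range_succ_mk]
  have h1 : ∑ j ∈ range (n + 1), q ^ (j * (j - 1) / 2) * gauss q n j * gauss q (m + n - j) n =
      ∑ j ∈ range (m + n + 1), q ^ (j * (j - 1) / 2) * gauss q n j * gauss q (m + n - j) n := by
    apply Finset.sum_subset
    · intro x hx; simp only [Finset.mem_range] at hx ⊢; omega
    · intro x _ hx
      simp only [Finset.mem_range, not_lt] at hx
      rw [gauss_eq_zero q n x (by omega)]; ring
  have h2 : ∑ j ∈ range (m + 1), q ^ (j * (j - 1) / 2) * gauss q n j * gauss q (n + (m - j)) n =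
      ∑ j ∈ range (m + n + 1), q ^ (j * (j - 1) / 2) * gauss q n j * gauss q (m + n - j) n := by
    have : ∑ j ∈ range (m + 1), q ^ (j * (j - 1) / 2) * gauss q n j * gauss q (n + (m - j)) n =
      ∑ j ∈ range (m + 1), q ^ (j * (j - 1) / 2) * gauss q n j * gauss q (m + n - j) n := by
      refine Finset.sum_congr rfl fun j hj => ?_
      simp only [Finset.mem_range] at hj
      have : n + (m - j) = m + n - j := by omega
      rw [this]
    rw [this]
    apply Finset.sum_subset
    · intro x hx; simp only [Finset.mem_range] at hx ⊢; omega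
    · intro x hx' hx
      simp only [Finset.mem_range, not_lt] at hx hx'
      rcases Nat.lt_or_ge n x with h | h
      · rw [gauss_eq_zero q n x h]; ring
      · rw [gauss_eq_zero q (m + n - x) n (by omega)]; ring
  rw [h1, ← h2]

lemma tri_succ (j : ℕ) : (j + 1) * (j + 1 - 1) / 2 = j * (j - 1) / 2 + j := by
  rw [← Finset.sum_range_id, ← Finset.sum_range_id, Finset.sum_range_succ]

lemma a_rec (q : R) (n j : ℕ) :
    q ^ ((j + 1) * (j + 1 - 1) / 2) * gauss q (n + 1) (j + 1) =
      q ^ ((j + 1) * (j + 1 - 1) / 2) * gauss q n (j + 1)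
        + q ^ n * (q ^ (j * (j - 1) / 2) * gauss q n j) := by
  rcases Nat.lt_or_ge n j with h | h
  · rw [gauss_eq_zero q (n + 1) (j + 1) (by omega), gauss_eq_zero q n (j + 1) (by omega),
      gauss_eq_zero q n j h]
    ring
  · rw [gauss_pascal' q n j, tri_succ]
    obtain ⟨d, rfl⟩ := Nat.exists_eq_add_of_le h
    have : j + d - j = d := by omega
    rw [this, pow_add, pow_add]
    ring

lemma qDelannoy_rec (q : R) (m n : ℕ) :
    qDelannoy q (m + 1) (n + 1) = q ^ (n + 1) * qDelannoy q m (n + 1) + qDelannoy q (m + 1) n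
      + q ^ n * qDelannoy q m n := by
  simp only [qDelannoy_eq_conv]
  have h1 := conv_right (fun j => q ^ (j * (j - 1) / 2) * gauss q (n + 1) j)
    (fun i => gauss q (n + 1 + i) (n + 1)) (fun i => gauss q (n + i) n) (q ^ (n + 1)) 0
    (by simp) (by
      intro j
      show gauss q ((n + 1 + j) + 1) (n + 1) - q ^ (n + 1) * gauss q (n + 1 + j) (n + 1) =
        gauss q (n + (j + 1)) n - 0 * gauss q (n + j) n
      rw [gauss_succ_succ, show n + (j + 1) = n + 1 + j by ring]
      ring) m
  have h2 := conv_left (fun j => q ^ (j * (j - 1) / 2) * gauss q (n + 1) j)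
    (fun j => q ^ (j * (j - 1) / 2) * gauss q n j) (fun i => gauss q (n + i) n) 0 (- q ^ n)
    (by simp) (by
      intro j
      rw [a_rec]; ring) m
  linear_combination h1 + h2

lemma qDelannoy_zero_left (q : R) (n : ℕ) : qDelannoy q 0 n = 1 := by
  rw [qDelannoy_eq_conv]; simp [conv]

lemma qDelannoy_zero_right (q : R) (m : ℕ) : qDelannoy q m 0 = 1 := by
  simp [qDelannoy]

end ring

section field
variable {K : Type*} [Field K]

/-- `(u;q)_i / (q;q)_i` -/
def eps (q u : K) (i : ℕ) : K := ∏ s ∈ range i, (1 - u * q ^ s) / (1 - q ^ (s + 1))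

@[simp] lemma eps_zero (q u : K) : eps q u 0 = 1 := by simp [eps]

lemma eps_succ (q u : K) (hq : ∀ n : ℕ, 1 - q ^ (n + 1) ≠ 0) (i : ℕ) :
    (1 - q ^ (i + 1)) * eps q u (i + 1) = (1 - u * q ^ i) * eps q u i := by
  have h : 1 - q ^ (i + 1) ≠ 0 := hq i
  unfold eps
  rw [Finset.prod_range_succ]
  field_simp

open Polynomial

/-- `G u v m Z = ∑_{i+j=m} (u;q)_i/(q;q)_i (v;q)_j/(q;q)_j Z^j` over the polynomial ring -/
noncomputable def G (q u v : K) (m : ℕ) (Z : K[X]) : K[X] :=
  conv (fun i => C (eps q u i)) (fun j => C (eps q v j) * Z ^ j) m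

lemma G_B (q u v : K) (hq : ∀ n : ℕ, 1 - q ^ (n + 1) ≠ 0) (m : ℕ) (Z : K[X]) :
    G q u v (m + 1) (C q * Z) - (C v * Z) * G q u v m (C q * Z) =
      G q u v (m + 1) Z - Z * G q u v m Z := by
  unfold G
  apply conv_right _ _ _ _ _ (by simp)
  intro j
  have h := eps_succ q v hq j
  have h' : C (1 - q ^ (j + 1)) * C (eps q v (j + 1)) = C (1 - v * q ^ j) * C (eps q v j) := by
    rw [← C_mul, h, C_mul]
  simp only [C_sub, C_1, C_mul, C_pow] at h'
  linear_combination (- Z ^ (j + 1)) * h'

lemma G_A (q u v : K) (hq : ∀ n : ℕ, 1 - q ^ (n + 1) ≠ 0) (m : ℕ) (Z : K[X]) :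
    C (q ^ (m + 1)) * G q u v (m + 1) Z - C (u * q ^ m) * G q u v m Z =
      G q u v (m + 1) (C q * Z) - G q u v m (C q * Z) := by
  unfold G
  have h1 := conv_scale (C q) (fun i => C (eps q u i)) (fun j => C (eps q v j) * Z ^ j) (m + 1)
  have h2 := conv_scale (C q) (fun i => C (eps q u i)) (fun j => C (eps q v j) * Z ^ j) m
  have e : (fun j => C q ^ j * (C (eps q v j) * Z ^ j)) = fun j => C (eps q v j) * (C q * Z) ^ j := by
    funext j; rw [mul_pow]; ring
  rw [e] at h1 h2
  have h3 := conv_left (fun i => C q ^ i * C (eps q u i)) (fun i => C (eps q u i))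
    (fun j => C (eps q v j) * (C q * Z) ^ j) (C u) 1 (by simp) (by
      intro j
      have h := eps_succ q u hq j
      have h' : C (1 - q ^ (j + 1)) * C (eps q u (j + 1)) = C (1 - u * q ^ j) * C (eps q u j) := by
        rw [← C_mul, h, C_mul]
      simp only [C_sub, C_1, C_mul, C_pow] at h'
      linear_combination (- 1) * h') m
  rw [h1, h2] at h3
  rw [C_mul, C_pow, C_pow]
  linear_combination h3

noncomputable def J (q : K) (m : ℕ) : K[X] := G q (-1) (-q) m (-X)
noncomputable def L (q : K) (m : ℕ) : K[X] := G q (-q) (-1) m (-(C q * X))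

lemma G_comp (q u v : K) (m : ℕ) (Z W : K[X]) :
    (G q u v m Z).comp W = G q u v m (Z.comp W) := by
  unfold G conv
  rw [Polynomial.sum_comp]
  refine Finset.sum_congr rfl fun x _ => ?_
  simp

lemma one_sub_ne (q : K) : (1 - C q * X : K[X]) ≠ 0 := by
  intro h
  have := congrArg (fun p => Polynomial.coeff p 0) h
  simp at this

/-- the four-term relation for the product `J m * L m` -/
lemma star_P (q : K) (hq : ∀ n : ℕ, 1 - q ^ (n + 1) ≠ 0) (m : ℕ) :
    (1 - C (q ^ (m + 2)) * X) * (X * (J q m * L q m).comp (C q * X) - C (q ^ m) * (J q (m + 1) * L q (m + 1)))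
      = (X - C (q ^ m)) * ((J q (m + 1) * L q (m + 1)).comp (C q * X)
          - C (q ^ (m + 1)) * X * (J q m * L q m)) := by
  have eJ : ∀ m, (J q m).comp (C q * X) = G q (-1) (-q) m (C q * (-X)) := by
    intro m; unfold J; rw [G_comp]; congr 1; simp
  have eL : ∀ m, (L q m).comp (C q * X) = G q (-q) (-1) m (C q * (-(C q * X))) := by
    intro m; unfold L; rw [G_comp]; congr 1; simp
  have A1 := G_A q (-1) (-q) hq m (-X)
  have B1 := G_B q (-1) (-q) hq m (-X)
  have A2 := G_A q (-q) (-1) hq m (-(C q * X))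
  have B2 := G_B q (-q) (-1) hq m (-(C q * X))
  rw [← eJ, ← eJ] at A1 B1
  rw [← eL, ← eL] at A2 B2
  change _ * J q (m + 1) - _ * J q m = _ at A1
  change _ = J q (m + 1) - _ * J q m at B1
  change _ * L q (m + 1) - _ * L q m = _ at A2
  change _ = L q (m + 1) - _ * L q m at B2
  simp only [C_mul, C_neg, C_1, C_pow, mul_comp] at A1 B1 A2 B2 ⊢
  set a := J q m
  set b := J q (m + 1)
  set c := (J q m).comp (C q * X)
  set d := (J q (m + 1)).comp (C q * X)
  set a' := L q m
  set b' := L q (m + 1)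
  set c' := (L q m).comp (C q * X)
  set d' := (L q (m + 1)).comp (C q * X)
  have hc : (1 - C q * X) * c = (1 - C q ^ (m + 1)) * b + (X - C q ^ m) * a := by
    linear_combination B1 + A1
  have hd : (1 - C q * X) * d = (1 - C q ^ (m + 2) * X) * b + X * (1 - C q ^ (m + 1)) * a := by
    linear_combination (C q * X) * A1 + B1
  have hc' : (1 - C q * X) * c' = (1 - C q ^ (m + 1)) * b' + (C q * X - C q ^ (m + 1)) * a' := by
    linear_combination B2 + A2
  have hd' : (1 - C q * X) * d' = (1 - C q ^ (m + 2) * X) * b' + C q * X * (1 - C q ^ (m + 1)) * a' := by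
    linear_combination (C q * X) * A2 + B2
  have hne : ((1 - C q * X : K[X])) ^ 2 ≠ 0 := pow_ne_zero _ (one_sub_ne q)
  apply mul_left_cancel₀ hne
  linear_combination ((1 - C q ^ (m + 2) * X) * X) * ((1 - C q * X) * c' * hc
      + ((1 - C q ^ (m + 1)) * b + (X - C q ^ m) * a) * hc')
    - (X - C q ^ m) * ((1 - C q * X) * d' * hd
      + ((1 - C q ^ (m + 2) * X) * b + X * (1 - C q ^ (m + 1)) * a) * hd')


lemma gauss_ratio_n {R : Type*} [CommRing R] (q : R) (n k : ℕ) (h : k ≤ n + 1) :
    (1 - q ^ (n + 1 - k)) * gauss q (n + 1) k = (1 - q ^ (n + 1)) * gauss q n k := by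
  cases k with
  | zero => simp
  | succ k =>
    have hk : k ≤ n := by omega
    have h1 := gauss_ratio_k q n k
    have e : n + 1 - (k + 1) = n - k := by omega
    rw [e, gauss_pascal' q n k]
    obtain ⟨d, rfl⟩ := Nat.exists_eq_add_of_le hk
    have e2 : k + d - k = d := by omega
    rw [e2] at h1 ⊢
    linear_combination (-q ^ d) * h1

lemma term_identity {A : Type*} [CommRing A] [IsDomain A] (q x α α' b b' : A) (s k : ℕ)
    (hα : ((1 - q ^ (s + 1)) * q ^ k) * α' = α * (1 - q ^ (s + k + k + 1)))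
    (hb : (q ^ k - q * x) * b' = q ^ k * (1 - q ^ (k + 1) * x) * b)
    (h1 : (1 - q ^ (s + 1)) * q ^ k ≠ 0) (h2 : q ^ k - q * x ≠ 0) :
    (1 - q ^ (s + k + 2) * x) * (x * (α * (q * x) ^ s * b') - q ^ (s + k) * (α' * x ^ (s + 1) * b))
      = (x - q ^ (s + k)) * (α' * (q * x) ^ (s + 1) * b' - q ^ (s + k + 1) * x * (α * x ^ s * b)) := by
  apply mul_left_cancel₀ h1
  apply mul_left_cancel₀ h2
  linear_combination ((1 - q ^ (s + k + 2) * x) * (α * q ^ s * x ^ (s + 1)) * ((1 - q ^ (s + 1)) * q ^ k)) * hb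
    - ((1 - q ^ (s + k + 2) * x) * q ^ (s + k) * x ^ (s + 1) * b * (q ^ k - q * x)) * hα
    - (x - q ^ (s + k)) * q ^ (s + 1) * x ^ (s + 1) * ((q ^ k - q * x) * b' * hα
        + (α * (1 - q ^ (s + k + k + 1))) * hb)

noncomputable def bp (q : K) (k : ℕ) : K[X] :=
  ∏ i ∈ range k, ((1 - C (q ^ (i + 1)) * X) * (1 - C (q⁻¹ ^ i) * X))

noncomputable def al (q : K) (m k : ℕ) : K :=
  q⁻¹ ^ (k * (m - k)) * gauss q (m + k) (2 * k) * eps q (-1) k * eps q (-q) k

noncomputable def Fp (q : K) (m : ℕ) : K[X] :=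
  ∑ k ∈ range (m + 1), C (al q m k) * X ^ (m - k) * bp q k

lemma bp_comp (q : K) (hq0 : q ≠ 0) (k : ℕ) :
    (C q ^ k - C q * X) * (bp q k).comp (C q * X) = C q ^ k * (1 - C q ^ (k + 1) * X) * bp q k := by
  induction k with
  | zero => simp [bp]
  | succ k ih =>
    have e : bp q (k + 1) = bp q k * ((1 - C (q ^ (k + 1)) * X) * (1 - C (q⁻¹ ^ k) * X)) := by
      unfold bp; rw [Finset.prod_range_succ]
    have hr : C (q⁻¹ ^ k) * C q ^ k = (1 : K[X]) := by
      rw [← C_pow, ← C_mul, ← mul_pow, inv_mul_cancel₀ hq0]; simp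
    rw [e]
    simp only [mul_comp, sub_comp, one_comp, C_comp, X_comp, pow_comp, C_pow] at ih hr ⊢
    set B := bp q k
    set B' := (bp q k).comp (C q * X)
    set r := (C q⁻¹ : K[X]) ^ k
    -- goal: (C q^(k+1) - C q * X) * (B' * ((1 - C q^(k+1) * (C q * X)) * (1 - r * (C q * X)))) = ...
    have h1 : (1 - r * (C q * X)) * C q ^ k = C q ^ k - C q * X := by
      linear_combination (- (C q * X)) * hr
    have h2 : (1 - r * X) * C q ^ k = C q ^ k - X := by
      linear_combination (- X) * hr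
    have hne : (C q : K[X]) ^ k ≠ 0 := pow_ne_zero _ (by simpa using hq0)
    apply mul_left_cancel₀ hne
    linear_combination ((C q ^ (k + 1) - C q * X) * B' * (1 - C q ^ (k + 1) * (C q * X))) * h1
      + ((C q ^ (k + 1) - C q * X) * (1 - C q ^ (k + 1) * (C q * X))) * ih
      - (C q ^ (k + 1) * (1 - C q ^ (k + 1 + 1) * X) * B * (1 - C q ^ (k + 1) * X)) * h2

lemma al_rec (q : K) (hq0 : q ≠ 0) (s k : ℕ) :
    ((1 - q ^ (s + 1)) * q ^ k) * al q (s + k + 1) k = al q (s + k) k * (1 - q ^ (s + k + k + 1)) := by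
  unfold al
  have e1 : s + k + 1 - k = s + 1 := by omega
  have e2 : s + k - k = s := by omega
  rw [e1, e2]
  have h := gauss_ratio_n q (s + k + k) (2 * k) (by omega)
  have e3 : s + k + k + 1 - 2 * k = s + 1 := by omega
  rw [e3] at h
  have e4 : s + k + 1 + k = s + k + k + 1 := by ring
  rw [e4]
  have e5 : q⁻¹ ^ (k * (s + 1)) * q ^ k = q⁻¹ ^ (k * s) := by
    rw [mul_add, mul_one, pow_add, mul_assoc, ← mul_pow, inv_mul_cancel₀ hq0]; simp
  linear_combination (q⁻¹ ^ (k * (s + 1)) * q ^ k * eps q (-1) k * eps q (-q) k) * h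
    + ((1 - q ^ (s + k + k + 1)) * gauss q (s + k + k) (2 * k) * eps q (-1) k * eps q (-q) k) * e5

lemma star_F (q : K) (hq0 : q ≠ 0) (hq : ∀ n : ℕ, 1 - q ^ (n + 1) ≠ 0) (m : ℕ) :
    (1 - C (q ^ (m + 2)) * X) * (X * (Fp q m).comp (C q * X) - C (q ^ m) * (Fp q (m + 1)))
      = (X - C (q ^ m)) * ((Fp q (m + 1)).comp (C q * X)
          - C (q ^ (m + 1)) * X * (Fp q m)) := by
  have e : Fp q (m + 1) = ∑ k ∈ range (m + 1), C (al q (m + 1) k) * X ^ (m - k + 1) * bp q k
      + C (al q (m + 1) (m + 1)) * bp q (m + 1) := by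
    unfold Fp
    rw [Finset.sum_range_succ]
    congr 1
    · refine Finset.sum_congr rfl fun k hk => ?_
      simp only [Finset.mem_range] at hk
      have : m + 1 - k = m - k + 1 := by omega
      rw [this]
    · simp
  have hlast : - ((1 - C q ^ (m + 2) * X) * C q ^ m * bp q (m + 1)) =
      (X - C q ^ m) * (bp q (m + 1)).comp (C q * X) := by
    have h := bp_comp q hq0 (m + 1)
    have hne : (C q : K[X]) ≠ 0 := by simpa using hq0
    apply mul_left_cancel₀ hne
    linear_combination h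
  have hterm : ∀ k ∈ range (m + 1),
      (1 - C q ^ (m + 2) * X) * (X * (C (al q m k) * (C q * X) ^ (m - k) * (bp q k).comp (C q * X))
        - C q ^ m * (C (al q (m + 1) k) * X ^ (m - k + 1) * bp q k))
      = (X - C q ^ m) * (C (al q (m + 1) k) * (C q * X) ^ (m - k + 1) * (bp q k).comp (C q * X)
        - C q ^ (m + 1) * X * (C (al q m k) * X ^ (m - k) * bp q k)) := by
    intro k hk
    simp only [Finset.mem_range] at hk
    obtain ⟨s, rfl⟩ : ∃ s, m = s + k := ⟨m - k, by omega⟩
    have e2 : s + k - k = s := by omega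
    rw [e2]
    apply term_identity
    · have h := al_rec q hq0 s k
      have := congrArg C h
      simpa only [C_mul, C_sub, C_1, C_pow] using this
    · exact bp_comp q hq0 k
    · have : (C ((1 - q ^ (s + 1)) * q ^ k) : K[X]) ≠ 0 := by
        rw [Ne, C_eq_zero]
        exact mul_ne_zero (hq s) (pow_ne_zero _ hq0)
      simpa only [C_mul, C_sub, C_1, C_pow] using this
    · intro h
      have := congrArg (fun p => Polynomial.coeff p 0) h
      simp only [coeff_sub, coeff_C_mul, coeff_X_zero, mul_zero, sub_zero, coeff_zero] at this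
      rw [← C_pow, coeff_C_zero] at this
      exact pow_ne_zero _ hq0 this
  rw [e]
  have eFc : (Fp q m).comp (C q * X) = ∑ k ∈ range (m + 1),
      C (al q m k) * (C q * X) ^ (m - k) * (bp q k).comp (C q * X) := by
    unfold Fp
    rw [Polynomial.sum_comp]
    refine Finset.sum_congr rfl fun k _ => ?_
    simp
  rw [eFc]
  simp only [add_comp, Polynomial.sum_comp, mul_comp, C_comp, X_comp, pow_comp, C_pow]
  have hs := Finset.sum_congr rfl hterm
  simp only [← Finset.mul_sum, Finset.sum_sub_distrib] at hs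
  unfold Fp
  linear_combination hs + C (al q (m + 1) (m + 1)) * hlast

lemma key_zero (q : K) (hq0 : q ≠ 0) (hq : ∀ n : ℕ, 1 - q ^ (n + 1) ≠ 0) (m : ℕ) (H : K[X])
    (h0 : H.coeff 0 = 0)
    (h : (1 - C (q ^ (m + 2)) * X) * (C (q ^ m) * H) = - ((X - C (q ^ m)) * H.comp (C q * X))) :
    H = 0 := by
  ext i
  induction i with
  | zero => simpa using h0
  | succ i ih =>
    have h1 := congrArg (fun p => Polynomial.coeff p (i + 1)) h
    have e1 : (1 - C (q ^ (m + 2)) * X) * (C (q ^ m) * H) =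
        C (q ^ m) * H - C (q ^ (m + 2) * q ^ m) * (X * H) := by
      rw [C_mul]; ring
    have e2 : - ((X - C (q ^ m)) * H.comp (C q * X)) =
        C (q ^ m) * H.comp (C q * X) - X * H.comp (C q * X) := by ring
    rw [e1, e2] at h1
    simp only [coeff_sub, coeff_C_mul, coeff_X_mul, comp_C_mul_X_coeff] at h1
    rw [ih] at h1
    simp only [coeff_zero, mul_zero, zero_mul, sub_zero] at h1 ⊢
    have h2 : q ^ m * ((1 - q ^ (i + 1)) * H.coeff (i + 1)) = 0 := by
      linear_combination h1
    rcases mul_eq_zero.mp h2 with h3 | h3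
    · exact absurd h3 (pow_ne_zero _ hq0)
    · rcases mul_eq_zero.mp h3 with h4 | h4
      · exact absurd h4 (hq i)
      · exact h4

lemma eval_G (q u v : K) (m : ℕ) (Z : K[X]) (y : K) :
    (G q u v m Z).eval y = conv (eps q u) (fun j => eps q v j * (Z.eval y) ^ j) m := by
  unfold G conv
  rw [Polynomial.eval_finsetSum]
  refine Finset.sum_congr rfl fun x _ => ?_
  simp

lemma conv_zero (q u v : K) (m : ℕ) :
    conv (eps q u) (fun j => eps q v j * (0 : K) ^ j) m = eps q u m := by
  unfold conv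
  rw [Finset.sum_eq_single (m, 0)]
  · simp
  · intro x hx hne
    have hx' : x.1 + x.2 = m := by simpa using hx
    have : x.2 ≠ 0 := by
      intro h2
      apply hne
      ext
      · simp; omega
      · simpa using h2
    simp [this]
  · simp

lemma coeff_zero_JL (q : K) (m : ℕ) :
    (J q m * L q m).coeff 0 = eps q (-1) m * eps q (-q) m := by
  rw [Polynomial.coeff_zero_eq_eval_zero, Polynomial.eval_mul]
  unfold J L
  rw [eval_G, eval_G]
  have e1 : (-X : K[X]).eval 0 = 0 := by simp
  have e2 : (-(C q * X) : K[X]).eval 0 = 0 := by simp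
  rw [e1, e2, conv_zero, conv_zero]

lemma coeff_zero_Fp (q : K) (m : ℕ) :
    (Fp q m).coeff 0 = eps q (-1) m * eps q (-q) m := by
  rw [Polynomial.coeff_zero_eq_eval_zero]
  unfold Fp
  rw [Polynomial.eval_finsetSum, Finset.sum_range_succ, Finset.sum_eq_zero]
  · have : eval 0 (bp q m) = 1 := by
      unfold bp
      rw [Polynomial.eval_prod]
      apply Finset.prod_eq_one
      intro i _
      simp
    simp only [Nat.sub_self, pow_zero, mul_one, eval_mul, eval_C, this, zero_add, al, mul_zero,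
      one_mul]
    have : m + m = 2 * m := by ring
    rw [this, gauss_self]
    ring
  · intro k hk
    simp only [Finset.mem_range] at hk
    simp only [eval_mul, eval_C, eval_pow, eval_X]
    have : m - k ≠ 0 := by omega
    simp [this]

/-- polynomial identity -/
theorem JL_eq_Fp (q : K) (hq0 : q ≠ 0) (hq : ∀ n : ℕ, 1 - q ^ (n + 1) ≠ 0) (m : ℕ) :
    J q m * L q m = Fp q m := by
  induction m with
  | zero => simp [J, L, G, conv, Fp, bp, al]
  | succ m ih =>
    have h1 := star_P q hq m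
    have h2 := star_F q hq0 hq m
    rw [ih] at h1
    have h3 : J q (m + 1) * L q (m + 1) - Fp q (m + 1) = 0 := by
      apply key_zero q hq0 hq m
      · rw [coeff_sub, coeff_zero_JL, coeff_zero_Fp, sub_self]
      · rw [sub_comp]
        linear_combination h2 - h1
    exact sub_eq_zero.mp h3

/-- scalar version of `G` -/
noncomputable def Gv (q u v : K) (m : ℕ) (z : K) : K :=
  conv (eps q u) (fun j => eps q v j * z ^ j) m

lemma Gv_B (q u v : K) (hq : ∀ n : ℕ, 1 - q ^ (n + 1) ≠ 0) (m : ℕ) (z : K) :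
    Gv q u v (m + 1) (q * z) - (v * z) * Gv q u v m (q * z) =
      Gv q u v (m + 1) z - z * Gv q u v m z := by
  have h := congrArg (Polynomial.eval z) (G_B q u v hq m X)
  simpa [eval_G, Gv] using h

lemma Gv_A (q u v : K) (hq : ∀ n : ℕ, 1 - q ^ (n + 1) ≠ 0) (m : ℕ) (z : K) :
    q ^ (m + 1) * Gv q u v (m + 1) z - (u * q ^ m) * Gv q u v m z =
      Gv q u v (m + 1) (q * z) - Gv q u v m (q * z) := by
  have h := congrArg (Polynomial.eval z) (G_A q u v hq m X)
  simpa [eval_G, Gv] using h

lemma Gv_one (q : K) (hq0 : q ≠ 0) (hq : ∀ n : ℕ, 1 - q ^ (n + 1) ≠ 0) (m : ℕ) :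
    Gv q (-1) (-q) m (-1) = 1 := by
  induction m with
  | zero => simp [Gv, conv]
  | succ m ih =>
    have hA := Gv_A q (-1) (-q) hq m (-q⁻¹)
    have hB := Gv_B q (-1) (-q) hq m (-q⁻¹)
    have e1 : q * -q⁻¹ = -1 := by field_simp
    have e2 : -q * -q⁻¹ = 1 := by field_simp
    rw [e1] at hA hB
    rw [e2] at hB
    have e3 : q ^ m = q ^ (m + 1) * q⁻¹ := by rw [pow_succ]; field_simp
    have h1 : (1 - q ^ (m + 1)) * (Gv q (-1) (-q) (m + 1) (-q⁻¹) + q⁻¹ * Gv q (-1) (-q) m (-q⁻¹)) = 0 := by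
      linear_combination Gv q (-1) (-q) m (-q⁻¹) * e3 - hB - hA
    rcases mul_eq_zero.mp h1 with h | h
    · exact absurd h (hq m)
    · linear_combination hB + h + ih

lemma qDelannoy_eq_Gv (q : K) (hq0 : q ≠ 0) (hq : ∀ n : ℕ, 1 - q ^ (n + 1) ≠ 0) :
    ∀ n m : ℕ, qDelannoy q m n = Gv q (-1) (-q) m (-q ^ n)
  | 0, m => by rw [qDelannoy_zero_right]; simp [Gv_one q hq0 hq m]
  | n + 1, 0 => by rw [qDelannoy_zero_left]; simp [Gv, conv]
  | n + 1, m + 1 => by
    have hB := Gv_B q (-1) (-q) hq m (-q ^ n)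
    rw [qDelannoy_rec, qDelannoy_eq_Gv q hq0 hq (n + 1) m, qDelannoy_eq_Gv q hq0 hq n (m + 1),
      qDelannoy_eq_Gv q hq0 hq n m]
    have e : q * -q ^ n = - q ^ (n + 1) := by ring
    rw [e] at hB
    linear_combination -hB

lemma inv_hq (q : K) (hq : ∀ n : ℕ, 1 - q ^ (n + 1) ≠ 0) (n : ℕ) :
    1 - q⁻¹ ^ (n + 1) ≠ 0 := by
  intro h
  apply hq n
  have : q⁻¹ ^ (n + 1) = 1 := by linear_combination -h
  rw [inv_pow, inv_eq_one] at this
  rw [this]; ring

lemma eps_inv_one (q : K) (hq0 : q ≠ 0) (hq : ∀ n : ℕ, 1 - q ^ (n + 1) ≠ 0) (i : ℕ) :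
    eps q⁻¹ (-1) i = (-q) ^ i * eps q (-1) i := by
  induction i with
  | zero => simp
  | succ i ih =>
    have h1 := eps_succ q⁻¹ (-1) (inv_hq q hq) i
    have h2 := eps_succ q (-1) hq i
    rw [ih] at h1
    apply mul_left_cancel₀ (inv_hq q hq i)
    rw [h1]
    have e : q⁻¹ ^ (i + 1) * q ^ (i + 1) = 1 := by rw [← mul_pow, inv_mul_cancel₀ hq0]; simp
    have e' : q⁻¹ ^ i * q ^ i = 1 := by rw [← mul_pow, inv_mul_cancel₀ hq0]; simp
    have hne : q ^ (i + 1) ≠ 0 := pow_ne_zero _ hq0
    apply mul_left_cancel₀ hne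
    linear_combination (-q) ^ (i + 1) * h2 + (-q) ^ i * eps q (-1) i * q * e'
      - ((-q) ^ (i + 1) * eps q (-1) (i + 1)) * (-1) * e

lemma eps_inv_q (q : K) (hq0 : q ≠ 0) (hq : ∀ n : ℕ, 1 - q ^ (n + 1) ≠ 0) (i : ℕ) :
    eps q⁻¹ (-q⁻¹) i = (-1) ^ i * eps q (-q) i := by
  induction i with
  | zero => simp
  | succ i ih =>
    have h1 := eps_succ q⁻¹ (-q⁻¹) (inv_hq q hq) i
    have h2 := eps_succ q (-q) hq i
    rw [ih] at h1
    apply mul_left_cancel₀ (inv_hq q hq i)
    rw [h1]
    have e : q⁻¹ ^ (i + 1) * q ^ (i + 1) = 1 := by rw [← mul_pow, inv_mul_cancel₀ hq0]; simp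
    have hne : q ^ (i + 1) ≠ 0 := pow_ne_zero _ hq0
    apply mul_left_cancel₀ hne
    linear_combination (-1) ^ (i + 1) * h2 + (-1) ^ i * eps q (-q) i * e
      + ((-1) ^ (i + 1) * eps q (-q) (i + 1)) * e

lemma eval_L (q : K) (hq0 : q ≠ 0) (hq : ∀ n : ℕ, 1 - q ^ (n + 1) ≠ 0) (m n : ℕ) :
    (L q m).eval (q ^ n) = q ^ (m * n) * qDelannoy q⁻¹ m n := by
  rw [qDelannoy_eq_Gv q⁻¹ (inv_ne_zero hq0) (inv_hq q hq)]
  unfold L Gv
  rw [eval_G]
  have h := conv_scale (q ^ n) (eps q⁻¹ (-1)) (fun j => eps q⁻¹ (-q⁻¹) j * (-q⁻¹ ^ n) ^ j) m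
  have e0 : (q ^ n) ^ m = q ^ (m * n) := by rw [← pow_mul, mul_comm]
  rw [e0] at h
  rw [← h, conv_comm]
  congr 1
  · funext j
    rw [eps_inv_one q hq0 hq]
    simp only [eval_neg, eval_mul, eval_C, eval_X]
    rw [neg_pow (q * q ^ n), neg_pow q, mul_pow]
    ring
  · funext j
    rw [eps_inv_q q hq0 hq, neg_pow (q⁻¹ ^ n)]
    have e1 : (q ^ n) ^ j * (q⁻¹ ^ n) ^ j = 1 := by
      rw [← mul_pow, ← mul_pow, mul_inv_cancel₀ hq0]; simp
    have e2 : ((-1 : K) ^ j) * (-1) ^ j = 1 := by rw [← mul_pow]; simp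
    linear_combination (-((-1 : K) ^ j) * (-1) ^ j * eps q (-q) j) * e1
      - eps q (-q) j * e2

lemma eval_J (q : K) (hq0 : q ≠ 0) (hq : ∀ n : ℕ, 1 - q ^ (n + 1) ≠ 0) (m n : ℕ) :
    (J q m).eval (q ^ n) = qDelannoy q m n := by
  rw [qDelannoy_eq_Gv q hq0 hq]
  unfold J Gv
  rw [eval_G]
  simp

end field

section ring2
variable {R : Type*} [CommRing R]

/-- `(q;q)_k` -/
def qf (q : R) (k : ℕ) : R := ∏ i ∈ range k, (1 - q ^ (i + 1))

lemma qf_succ (q : R) (k : ℕ) : qf q (k + 1) = qf q k * (1 - q ^ (k + 1)) := by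
  unfold qf; rw [Finset.prod_range_succ]

lemma gauss_qf (q : R) (b : ℕ) : ∀ a : ℕ, gauss q (a + b) a * qf q a * qf q b = qf q (a + b)
  | 0 => by simp [qf]
  | a + 1 => by
    have h1 := gauss_ratio_nk q (a + b) a
    have h2 := gauss_qf q b a
    have e : a + 1 + b = a + b + 1 := by ring
    rw [e, qf_succ, qf_succ q (a + b)]
    linear_combination (qf q a * qf q b) * h1 + (1 - q ^ (a + b + 1)) * h2

/-- `∏_{i<k} (1+q^i)(1+q^{i+1})` -/
def pp (q : R) (k : ℕ) : R := ∏ i ∈ range k, ((1 + q ^ i) * (1 + q ^ (i + 1)))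

end ring2

section field2
variable {K : Type*} [Field K]
open Polynomial

lemma eval_bp (q : K) (hq0 : q ≠ 0) (n : ℕ) : ∀ k : ℕ,
    (bp q k).eval (q ^ n) = gauss q (n + k) (2 * k) * qf q (2 * k)
  | 0 => by simp [bp, qf]
  | k + 1 => by
    have ih := eval_bp q hq0 n k
    have e : bp q (k + 1) = bp q k * ((1 - C (q ^ (k + 1)) * X) * (1 - C (q⁻¹ ^ k) * X)) := by
      unfold bp; rw [Finset.prod_range_succ]
    rw [e]
    simp only [eval_mul, eval_sub, eval_one, eval_C, eval_X]
    rw [ih]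
    have h1 := gauss_ratio_nk q (n + k) (2 * k + 1)
    have h2 := gauss_ratio_k q (n + k) (2 * k)
    have e1 : n + (k + 1) = n + k + 1 := by ring
    have e2 : 2 * (k + 1) = 2 * k + 1 + 1 := by ring
    rw [e1, e2, qf_succ, qf_succ]
    rcases Nat.lt_or_ge n k with h | h
    · rw [gauss_eq_zero q (n + k) (2 * k) (by omega),
        gauss_eq_zero q (n + k + 1) (2 * k + 1 + 1) (by omega)]
      ring
    · obtain ⟨d, rfl⟩ := Nat.exists_eq_add_of_le h
      have e3 : k + d + k - 2 * k = d := by omega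
      rw [e3] at h2
      have e4 : q⁻¹ ^ k * q ^ (k + d) = q ^ d := by
        rw [pow_add, ← mul_assoc, ← mul_pow, inv_mul_cancel₀ hq0]; simp
      rw [e4]
      linear_combination (-qf q (2 * k) * (1 - q ^ (2 * k + 1))) * h1
        - (qf q (2 * k) * (1 - q ^ (k + d + k + 1))) * h2

lemma qf_ne_zero (q : K) (hq : ∀ n : ℕ, 1 - q ^ (n + 1) ≠ 0) (k : ℕ) : qf q k ≠ 0 := by
  unfold qf
  exact Finset.prod_ne_zero_iff.mpr fun i _ => hq i

lemma eps_mul_qf (q u : K) (hq : ∀ n : ℕ, 1 - q ^ (n + 1) ≠ 0) (k : ℕ) :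
    eps q u k * qf q k = ∏ s ∈ range k, (1 - u * q ^ s) := by
  unfold eps qf
  rw [← Finset.prod_mul_distrib]
  refine Finset.prod_congr rfl fun s _ => ?_
  exact div_mul_cancel₀ _ (hq s)

lemma eps_eps (q : K) (hq : ∀ n : ℕ, 1 - q ^ (n + 1) ≠ 0) (k : ℕ) :
    eps q (-1) k * eps q (-q) k * qf q (2 * k) = gauss q (2 * k) k * pp q k := by
  have h1 := eps_mul_qf q (-1) hq k
  have h2 := eps_mul_qf q (-q) hq k
  have h3 := gauss_qf q k k
  have e : k + k = 2 * k := by ring
  rw [e] at h3
  have h4 : pp q k = (eps q (-1) k * qf q k) * (eps q (-q) k * qf q k) := by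
    rw [h1, h2, ← Finset.prod_mul_distrib]
    unfold pp
    refine Finset.prod_congr rfl fun s _ => ?_
    ring
  rw [h4, ← h3]
  ring

theorem prod_formula (q : K) (hq0 : q ≠ 0) (hq : ∀ n : ℕ, 1 - q ^ (n + 1) ≠ 0) (m n : ℕ) :
    q ^ (m * n) * (qDelannoy q m n * qDelannoy q⁻¹ m n) =
      ∑ k ∈ range (m + 1), q ^ ((m - k) * (n - k)) *
        (gauss q (m + k) (2 * k) * gauss q (2 * k) k * pp q k) * gauss q (n + k) (2 * k) := by
  have h := congrArg (Polynomial.eval (q ^ n)) (JL_eq_Fp q hq0 hq m)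
  rw [eval_mul, eval_J q hq0 hq, eval_L q hq0 hq] at h
  have h' : q ^ (m * n) * (qDelannoy q m n * qDelannoy q⁻¹ m n) = eval (q ^ n) (Fp q m) := by
    rw [← h]; ring
  rw [h']
  unfold Fp
  rw [Polynomial.eval_finsetSum]
  refine Finset.sum_congr rfl fun k hk => ?_
  simp only [Finset.mem_range] at hk
  simp only [eval_mul, eval_C, eval_pow, eval_X]
  rw [eval_bp q hq0]
  rcases Nat.lt_or_ge n k with h | h
  · rw [gauss_eq_zero q (n + k) (2 * k) (by omega)]
    ring
  · unfold al
    obtain ⟨d, rfl⟩ := Nat.exists_eq_add_of_le h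
    have e : k + d - k = d := by omega
    rw [e]
    have e2 : q⁻¹ ^ (k * (m - k)) * (q ^ (k + d)) ^ (m - k) = q ^ ((m - k) * d) := by
      rw [← pow_mul, add_mul, pow_add, ← mul_assoc, ← mul_pow, inv_mul_cancel₀ hq0, one_pow,
        one_mul, mul_comm d]
    have e3 := eps_eps q hq k
    linear_combination (gauss q (m + k) (2 * k) * eps q (-1) k * eps q (-q) k * gauss q (k + d + k) (2 * k) * qf q (2 * k)) * e2
      + (q ^ ((m - k) * d) * gauss q (m + k) (2 * k) * gauss q (k + d + k) (2 * k)) * e3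

end field2

section dom
variable {R : Type*} [CommRing R]

lemma one_sub_mul_qint (q : R) (n : ℕ) : (1 - q) * qint q n = 1 - q ^ n := by
  unfold qint; exact mul_neg_geom_sum q n

lemma qint_zero (q : R) : qint q 0 = 0 := by simp [qint]
lemma qint_one (q : R) : qint q 1 = 1 := by simp [qint]

lemma qint_succ (q : R) (n : ℕ) : qint q (n + 1) = qint q n + q ^ n := by
  unfold qint; rw [Finset.sum_range_succ]

lemma qint_add (q : R) (a b : ℕ) : qint q (a + b) = qint q a + q ^ a * qint q b := by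
  unfold qint; rw [Finset.sum_range_add, Finset.mul_sum]; simp [pow_add]

lemma qint_mul (q : R) (a b : ℕ) : qint q (a * b) = qint q a * qint (q ^ a) b := by
  induction b with
  | zero => simp [qint]
  | succ b ih =>
    rw [mul_add, mul_one, qint_add, ih, qint_succ, ← pow_mul]; ring

lemma gauss_succ_one (q : R) (n : ℕ) : gauss q (n + 1) n = qint q (n + 1) := by
  induction n with
  | zero => simp [qint]
  | succ n ih =>
    rw [gauss_succ_succ, ih, gauss_self, qint_succ q (n + 1)]; ring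

variable [IsDomain R]

/-- ratio relation with `[·]` -/
lemma qint_ratio_nk (q : R) (h1 : 1 - q ≠ 0) (n k : ℕ) :
    qint q (k + 1) * gauss q (n + 1) (k + 1) = qint q (n + 1) * gauss q n k := by
  apply mul_left_cancel₀ h1
  rw [← mul_assoc, ← mul_assoc, one_sub_mul_qint, one_sub_mul_qint]
  exact gauss_ratio_nk q n k

lemma qint_ratio_n (q : R) (h1 : 1 - q ≠ 0) (n k : ℕ) (h : k ≤ n + 1) :
    qint q (n + 1 - k) * gauss q (n + 1) k = qint q (n + 1) * gauss q n k := by
  apply mul_left_cancel₀ h1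
  rw [← mul_assoc, ← mul_assoc, one_sub_mul_qint, one_sub_mul_qint]
  exact gauss_ratio_n q n k h

lemma qf_ne_zero' (q : R) (hq : ∀ n : ℕ, 1 - q ^ (n + 1) ≠ 0) (k : ℕ) : qf q k ≠ 0 := by
  unfold qf
  exact Finset.prod_ne_zero_iff.mpr fun i _ => hq i

lemma trinomial (q : R) (hq : ∀ n : ℕ, 1 - q ^ (n + 1) ≠ 0) (k d : ℕ) :
    gauss q (k + d + k) (2 * k) * gauss q (2 * k) k = gauss q (k + d + k) k * gauss q (k + d) k := by
  have h1 := gauss_qf q d (2 * k)
  have h2 := gauss_qf q k k
  have h3 := gauss_qf q (k + d) k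
  have h4 := gauss_qf q d k
  have e1 : 2 * k + d = k + d + k := by ring
  have e2 : k + k = 2 * k := by ring
  have e3 : k + (k + d) = k + d + k := by ring
  rw [e1] at h1
  rw [e2] at h2
  rw [e3] at h3
  have hne : qf q k * qf q k * qf q d * qf q (k + d) * qf q (2 * k) ≠ 0 := by
    simp [qf_ne_zero' q hq]
  apply mul_left_cancel₀ hne
  linear_combination (qf q (k + d) * gauss q (2 * k) k * qf q k * qf q k) * h1
    + (qf q (k + d) * qf q (k + d + k)) * h2
    - (qf q (2 * k) * gauss q (k + d) k * qf q k * qf q d) * h3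
    - (qf q (2 * k) * qf q (k + d + k)) * h4

/-- the summation formula -/
lemma sum_formula (q : R) (h1 : 1 - q ≠ 0) (k : ℕ) (r : R) (hr : q * r = 1) (p : ℕ) :
    q ^ ((k + 1) * p) * (qint q (k + 1) * ∑ j ∈ range p, qint q (2 * j + 1) * r ^ ((k + 1) * j) * gauss q (j + k) (2 * k))
      = q ^ (k + 1) * (qint q p * qint q (p - k) * gauss q (p + k) (2 * k)) := by
  induction p with
  | zero => simp [qint]
  | succ p ih =>
    rw [Finset.sum_range_succ]
    have e0 : q ^ ((k + 1) * (p + 1)) = q ^ (k + 1) * q ^ ((k + 1) * p) := by ring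
    have e1 : q ^ ((k + 1) * p) * r ^ ((k + 1) * p) = 1 := by rw [← mul_pow, hr, one_pow]
    rw [e0, mul_add (qint q (k + 1)), mul_add, mul_assoc (q ^ (k + 1)), ih]
    rcases Nat.lt_or_ge p k with h | h
    · rw [gauss_eq_zero q (p + k) (2 * k) (by omega)]
      have : p + 1 - k = 0 := by omega
      rw [this, qint_zero]; ring
    · obtain ⟨d, rfl⟩ := Nat.exists_eq_add_of_le h
      have h2 := qint_ratio_n q h1 (k + d + k) (2 * k) (by omega)
      have e3 : k + d + k + 1 - 2 * k = d + 1 := by omega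
      have e4 : k + d - k = d := by omega
      have e5 : k + d + 1 - k = d + 1 := by omega
      have e6 : k + d + 1 + k = k + d + k + 1 := by ring
      rw [e3] at h2
      rw [e4, e5, e6]
      have key : q ^ (k + 1) * qint q (k + d) * qint q d + qint q (k + 1) * qint q (2 * (k + d) + 1)
          = qint q (k + d + 1) * qint q (k + d + k + 1) := by
        apply mul_left_cancel₀ h1
        apply mul_left_cancel₀ h1
        have a1 := one_sub_mul_qint q (k + d)
        have a2 := one_sub_mul_qint q d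
        have a3 := one_sub_mul_qint q (k + 1)
        have a4 := one_sub_mul_qint q (2 * (k + d) + 1)
        have a5 := one_sub_mul_qint q (k + d + 1)
        have a6 := one_sub_mul_qint q (k + d + k + 1)
        have : (1 - q) * ((1 - q) * (q ^ (k + 1) * qint q (k + d) * qint q d + qint q (k + 1) * qint q (2 * (k + d) + 1)))
          = q ^ (k + 1) * ((1 - q) * qint q (k + d)) * ((1 - q) * qint q d) + ((1 - q) * qint q (k + 1)) * ((1 - q) * qint q (2 * (k + d) + 1)) := by ring
        rw [this, a1, a2, a3, a4]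
        have : (1 - q) * ((1 - q) * (qint q (k + d + 1) * qint q (k + d + k + 1))) =
          ((1 - q) * qint q (k + d + 1)) * ((1 - q) * qint q (k + d + k + 1)) := by ring
        rw [this, a5, a6]
        ring
      linear_combination (q ^ (k + 1) * qint q (k + 1) * qint q (2 * (k + d) + 1) * gauss q (k + d + k) (2 * k)) * e1
        - (q ^ (k + 1) * qint q (k + d + 1)) * h2 + (q ^ (k + 1) * gauss q (k + d + k) (2 * k)) * key

end dom

section map
variable {R S : Type*} [CommRing R] [CommRing S]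

lemma qint_map (f : R →+* S) (q : R) (n : ℕ) : qint (f q) n = f (qint q n) := by
  simp [qint]

lemma qDelannoy_map (f : R →+* S) (q : R) (m n : ℕ) :
    qDelannoy (f q) m n = f (qDelannoy q m n) := by
  simp [qDelannoy, gauss_map]

lemma pp_map (f : R →+* S) (q : R) (k : ℕ) : pp (f q) k = f (pp q k) := by
  simp [pp]

/-- ratio relation with `[·]` in an arbitrary commutative ring -/
lemma qint_ratio_nk' (q : R) (n k : ℕ) :
    qint q (k + 1) * gauss q (n + 1) (k + 1) = qint q (n + 1) * gauss q n k := by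
  have h1 : (1 - Polynomial.X : Polynomial ℤ) ≠ 0 := by
    intro h
    have := congrArg (Polynomial.eval 0) h
    simp at this
  have h := qint_ratio_nk (Polynomial.X : Polynomial ℤ) h1 n k
  have h2 := congrArg (Polynomial.eval₂RingHom (Int.castRingHom R) q) h
  simp only [map_mul, ← qint_map, ← gauss_map] at h2
  simpa using h2

theorem prod_formula_dom [IsDomain R] (q r : R) (hr : q * r = 1)
    (hq : ∀ n : ℕ, 1 - q ^ (n + 1) ≠ 0) (m n : ℕ) :
    q ^ (m * n) * (qDelannoy q m n * qDelannoy r m n) =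
      ∑ k ∈ range (m + 1), q ^ ((m - k) * (n - k)) *
        (gauss q (m + k) (2 * k) * gauss q (2 * k) k * pp q k) * gauss q (n + k) (2 * k) := by
  let f := algebraMap R (FractionRing R)
  have hf : Function.Injective f := IsFractionRing.injective R (FractionRing R)
  have hfr : f q * f r = 1 := by rw [← map_mul, hr, map_one]
  have hq0 : f q ≠ 0 := left_ne_zero_of_mul_eq_one hfr
  have hri : (f q)⁻¹ = f r := inv_eq_of_mul_eq_one_right hfr
  have hq' : ∀ n : ℕ, 1 - (f q) ^ (n + 1) ≠ 0 := by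
    intro n h
    apply hq n
    apply hf
    simpa using h
  have h := prod_formula (f q) hq0 hq' m n
  rw [hri] at h
  simp only [qDelannoy_map, gauss_map, pp_map] at h
  apply hf
  simp only [map_mul, map_pow, map_sum]
  exact h

end map

section main
variable {R : Type*} [CommRing R]

/-- inner sum -/
def Ak (q r : R) (k p : ℕ) : R :=
  ∑ j ∈ range p, qint q (2 * j + 1) * r ^ ((k + 1) * j) * gauss q (j + k) (2 * k)

/-- coefficient -/
def ck (q r : R) (m k : ℕ) : R :=
  gauss q (m + k) (2 * k) * gauss q (2 * k) k * pp q k * (q ^ (k * k) * r ^ (k * m))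

theorem S_formula [IsDomain R] (q r : R) (hr : q * r = 1)
    (hq : ∀ n : ℕ, 1 - q ^ (n + 1) ≠ 0) (m p M : ℕ) (hM : m + 1 ≤ M) :
    ∑ j ∈ range p, qint q (2 * j + 1) * r ^ j * (qDelannoy q m j * qDelannoy r m j) =
      ∑ k ∈ range M, ck q r m k * Ak q r k p := by
  have hrr : ∀ n : ℕ, q ^ n * r ^ n = 1 := fun n => by rw [← mul_pow, hr, one_pow]
  have h1 : ∀ j : ℕ, qDelannoy q m j * qDelannoy r m j =
      ∑ k ∈ range (m + 1), ck q r m k * (r ^ (k * j) * gauss q (j + k) (2 * k)) := by
    intro j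
    have h := prod_formula_dom q r hr hq m j
    have h2 : qDelannoy q m j * qDelannoy r m j =
        r ^ (m * j) * (q ^ (m * j) * (qDelannoy q m j * qDelannoy r m j)) := by
      linear_combination (-(qDelannoy q m j * qDelannoy r m j)) * hrr (m * j)
    rw [h2, h, Finset.mul_sum]
    refine Finset.sum_congr rfl fun k hk => ?_
    simp only [Finset.mem_range] at hk
    rcases Nat.lt_or_ge j k with hjk | hjk
    · rw [gauss_eq_zero q (j + k) (2 * k) (by omega)]; ring
    · unfold ck
      obtain ⟨d, rfl⟩ := Nat.exists_eq_add_of_le hjk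
      obtain ⟨e, rfl⟩ := Nat.exists_eq_add_of_le (Nat.lt_succ_iff.mp hk)
      have e1 : k + d - k = d := by omega
      have e2 : k + e - k = e := by omega
      rw [e1, e2]
      have e3 : r ^ ((k + e) * (k + d)) * q ^ (e * d) = q ^ (k * k) * r ^ (k * (k + e)) * r ^ (k * (k + d)) := by
        have a1 := hrr (e * d)
        have a2 := hrr (k * k)
        have b1 : r ^ ((k + e) * (k + d)) = r ^ (k * (k + e)) * r ^ (k * d) * r ^ (e * d) := by
          rw [← pow_add, ← pow_add]; ring_nf
        have b2 : r ^ (k * (k + d)) = r ^ (k * k) * r ^ (k * d) := by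
          rw [← pow_add]; ring_nf
        rw [b1, b2]
        linear_combination (r ^ (k * (k + e)) * r ^ (k * d)) * a1
          - (r ^ (k * (k + e)) * r ^ (k * d)) * a2
      linear_combination (gauss q (k + e + k) (2 * k) * gauss q (2 * k) k * pp q k * gauss q (k + d + k) (2 * k)) * e3
  have h2 : ∑ j ∈ range p, qint q (2 * j + 1) * r ^ j * (qDelannoy q m j * qDelannoy r m j) =
      ∑ k ∈ range (m + 1), ck q r m k * Ak q r k p := by
    simp only [h1, Finset.mul_sum]
    rw [Finset.sum_comm]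
    refine Finset.sum_congr rfl fun k _ => ?_
    unfold Ak
    rw [Finset.mul_sum]
    refine Finset.sum_congr rfl fun j _ => ?_
    have : r ^ ((k + 1) * j) = r ^ j * r ^ (k * j) := by rw [← pow_add]; ring_nf
    rw [this]; ring
  rw [h2]
  apply Finset.sum_subset
  · intro x hx; simp only [Finset.mem_range] at hx ⊢; omega
  · intro k _ hk
    simp only [Finset.mem_range, not_lt] at hk
    unfold ck
    rw [gauss_eq_zero q (m + k) (2 * k) (by omega)]
    ring

lemma Ak_eq_zero (q r : R) (k p : ℕ) (h : p ≤ k) : Ak q r k p = 0 := by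
  unfold Ak
  apply Finset.sum_eq_zero
  intro j hj
  simp only [Finset.mem_range] at hj
  rw [gauss_eq_zero q (j + k) (2 * k) (by omega)]; ring

lemma Ak_last (q r : R) (p' : ℕ) : Ak q r p' (p' + 1) = qint q (2 * p' + 1) * r ^ ((p' + 1) * p') := by
  unfold Ak
  rw [Finset.sum_range_succ, Finset.sum_eq_zero]
  · have : p' + p' = 2 * p' := by ring
    rw [this, gauss_self]; ring
  · intro j hj
    simp only [Finset.mem_range] at hj
    rw [gauss_eq_zero q (j + p') (2 * p') (by omega)]; ring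

lemma qint_coprime (q : R) : ∀ n a b : ℕ, a + b ≤ n → Nat.Coprime a b →
    IsCoprime (qint q a) (qint q b) := by
  intro n
  induction n with
  | zero =>
    intro a b h hc
    have ha : a = 0 := by omega
    have hb : b = 0 := by omega
    subst ha; subst hb
    simp at hc
  | succ n ih =>
    intro a b h hc
    rcases Nat.eq_zero_or_pos a with ha | ha
    · subst ha
      have hb : b = 1 := by simpa using hc
      subst hb
      rw [qint_one]; exact isCoprime_one_right
    · rcases Nat.eq_zero_or_pos b with hb | hb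
      · subst hb
        have ha : a = 1 := by simpa using hc
        subst ha
        rw [qint_one]; exact isCoprime_one_left
      · rcases Nat.le_total a b with hab | hab
        · obtain ⟨c, rfl⟩ := Nat.exists_eq_add_of_le hab
          have hc' : Nat.Coprime a c := by simpa using hc
          have := ih a c (by omega) hc'
          rw [add_comm a c, qint_add]
          exact this.add_mul_right_right _
        · obtain ⟨c, rfl⟩ := Nat.exists_eq_add_of_le hab
          have hc' : Nat.Coprime c b := by simpa using hc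
          have := ih c b (by omega) hc'
          rw [add_comm b c, qint_add]
          exact this.add_mul_right_left _

lemma term_dvd [IsDomain R] (q r : R) (hr : q * r = 1)
    (hq : ∀ n : ℕ, 1 - q ^ (n + 1) ≠ 0) (m p' k : ℕ) (hp : (p' + 1).Prime) (hk : k ≠ p') :
    (qint q (p' + 1)) ^ 2 ∣ ck q r m k * Ak q r k (p' + 1) := by
  rcases Nat.lt_or_ge p' k with hlt | hge
  · rw [Ak_eq_zero q r k (p' + 1) hlt]; simp
  · have hlt : k < p' := lt_of_le_of_ne hge hk
    have h1 : 1 - q ≠ 0 := by simpa using hq 0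
    obtain ⟨d, rfl⟩ := Nat.exists_eq_add_of_lt hlt
    have hs := sum_formula q h1 k r hr (k + d + 1 + 1)
    change _ * (_ * Ak q r k (k + d + 1 + 1)) = _ at hs
    have e1 : k + d + 1 + 1 - k = d + 2 := by omega
    rw [e1] at hs
    have ht := trinomial q hq k (d + 2)
    have e2 : k + (d + 2) = k + d + 1 + 1 := by ring
    rw [e2] at ht
    have hn := qint_ratio_n q h1 (k + d + 1) k (by omega)
    rw [e1] at hn
    have hcop : IsCoprime (qint q (k + 1)) ((qint q (k + d + 1 + 1)) ^ 2) := by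
      apply IsCoprime.pow_right
      apply qint_coprime q _ _ _ le_rfl
      have := (Nat.Prime.coprime_iff_not_dvd hp (n := k + 1)).mpr (by
        intro hd
        have := Nat.le_of_dvd (by omega) hd
        omega)
      exact this.symm
    have hdvd : (qint q (k + d + 1 + 1)) ^ 2 ∣
        qint q (k + 1) * (gauss q (2 * k) k * Ak q r k (k + d + 1 + 1)) := by
      refine ⟨r ^ ((k + 1) * (k + d + 1 + 1)) * q ^ (k + 1) * gauss q (k + d + 1 + 1 + k) k
        * gauss q (k + d + 1) k, ?_⟩
      have hrr : q ^ ((k + 1) * (k + d + 1 + 1)) * r ^ ((k + 1) * (k + d + 1 + 1)) = 1 := by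
        rw [← mul_pow, hr, one_pow]
      linear_combination (- (qint q (k + 1) * (gauss q (2 * k) k * Ak q r k (k + d + 1 + 1)))) * hrr
        + (r ^ ((k + 1) * (k + d + 1 + 1)) * gauss q (2 * k) k) * hs
        + (r ^ ((k + 1) * (k + d + 1 + 1)) * q ^ (k + 1) * qint q (k + d + 1 + 1) * qint q (d + 2)) * ht
        + (r ^ ((k + 1) * (k + d + 1 + 1)) * q ^ (k + 1) * qint q (k + d + 1 + 1) * gauss q (k + d + 1 + 1 + k) k) * hn
    have h3 := hcop.symm.dvd_of_dvd_mul_left hdvd
    have e4 : ck q r m k * Ak q r k (k + d + 1 + 1) =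
        (gauss q (2 * k) k * Ak q r k (k + d + 1 + 1)) * (gauss q (m + k) (2 * k) * pp q k * (q ^ (k * k) * r ^ (k * m))) := by
      unfold ck; ring
    rw [e4]
    exact Dvd.dvd.mul_right h3 _

end main

section quot
variable {R : Type*} [CommRing R]

lemma pow_eq_one_of_qint (q : R) (p : ℕ) (h0 : qint q p = 0) : q ^ p = 1 := by
  have h := one_sub_mul_qint q p
  rw [h0] at h
  linear_combination h

lemma isUnit_qint (q : R) (p a : ℕ) (h0 : qint q p = 0) (hc : Nat.Coprime a p) :
    IsUnit (qint q a) := by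
  have h := qint_coprime q _ a p le_rfl hc
  rw [h0] at h
  exact isCoprime_zero_right.mp h

lemma coprime_of_lt {p a : ℕ} (hp : p.Prime) (h1 : 0 < a) (h2 : a < p) : Nat.Coprime a p := by
  refine ((Nat.Prime.coprime_iff_not_dvd hp).mpr ?_).symm
  intro hd
  have := Nat.le_of_dvd h1 hd
  omega

lemma gauss_p (q : R) (p k : ℕ) (hp : p.Prime) (h0 : qint q p = 0) (h1 : 0 < k) (h2 : k < p) :
    gauss q p k = 0 := by
  obtain ⟨p', rfl⟩ := Nat.exists_eq_succ_of_ne_zero hp.ne_zero
  obtain ⟨k', rfl⟩ := Nat.exists_eq_succ_of_ne_zero h1.ne'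
  have h := qint_ratio_nk' q p' k'
  change _ = qint q (p'.succ) * _ at h
  rw [h0, zero_mul] at h
  have hu : IsUnit (qint q (k' + 1)) := isUnit_qint q p'.succ (k' + 1) h0 (coprime_of_lt hp h1 h2)
  exact (hu.mul_right_eq_zero).mp h

lemma gauss_add_p (q : R) (p : ℕ) (hp : p.Prime) (h0 : qint q p = 0) : ∀ N k : ℕ,
    gauss q (N + p) k = gauss q N k + (if p ≤ k then gauss q N (k - p) else 0)
  | 0, 0 => by simp [hp.ne_zero]
  | 0, k + 1 => by
    have hp0 := hp.pos
    rw [zero_add, gauss_zero_succ, zero_add]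
    rcases Nat.lt_trichotomy (k + 1) p with h | h | h
    · rw [gauss_p q p (k + 1) hp h0 (by omega) h, if_neg (by omega)]
    · rw [← h, if_pos le_rfl]; simp
    · rw [gauss_eq_zero q p (k + 1) h, if_pos h.le, gauss_eq_zero q 0 (k + 1 - p) (by omega)]
  | N + 1, 0 => by simp [hp.ne_zero]
  | N + 1, k + 1 => by
    have hp0 := hp.pos
    have h1 := gauss_add_p q p hp h0 N k
    have h2 := gauss_add_p q p hp h0 N (k + 1)
    have hqp := pow_eq_one_of_qint q p h0
    have e : N + 1 + p = N + p + 1 := by ring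
    rw [e, gauss_succ_succ, h1, h2, gauss_succ_succ]
    rcases Nat.lt_trichotomy (k + 1) p with h | h | h
    · have c1 : ¬ p ≤ k := by omega
      have c2 : ¬ p ≤ k + 1 := by omega
      simp only [if_neg c1, if_neg c2]; ring
    · have c1 : ¬ p ≤ k := by omega
      simp only [if_neg c1, if_pos h.ge]
      have e3 : k + 1 - p = 0 := by omega
      rw [e3, gauss_zero_right, gauss_zero_right, h, hqp]; ring
    · have c1 : p ≤ k := by omega
      simp only [if_pos c1, if_pos h.le]
      obtain ⟨c, rfl⟩ : ∃ c, k = p + c := ⟨k - p, by omega⟩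
      have e3 : p + c + 1 - p = c + 1 := by omega
      have e4 : p + c - p = c := by omega
      rw [e3, e4, gauss_succ_succ]
      have e5 : q ^ (p + c + 1) = q ^ (c + 1) := by
        rw [add_assoc, pow_add, hqp, one_mul]
      rw [e5]; ring

lemma gauss_lucas_small (q : R) (p : ℕ) (hp : p.Prime) (h0 : qint q p = 0) (b c : ℕ) (hc : c < p) :
    ∀ a : ℕ, gauss q (a * p + b) c = gauss q b c
  | 0 => by simp
  | a + 1 => by
    have e : (a + 1) * p + b = (a * p + b) + p := by ring
    rw [e, gauss_add_p q p hp h0, if_neg (by omega), gauss_lucas_small q p hp h0 b c hc a, add_zero]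

lemma gauss_lucas (q : R) (p : ℕ) (hp : p.Prime) (h0 : qint q p = 0) (b c : ℕ) (hb : b < p)
    (hc : c < p) : ∀ a : ℕ, gauss q (a * p + b) (p + c) = a * gauss q b c
  | 0 => by rw [gauss_eq_zero q (0 * p + b) (p + c) (by omega)]; simp
  | a + 1 => by
    have e : (a + 1) * p + b = (a * p + b) + p := by ring
    rw [e, gauss_add_p q p hp h0, if_pos (by omega), gauss_lucas q p hp h0 b c hb hc a]
    have e2 : p + c - p = c := by omega
    rw [e2, gauss_lucas_small q p hp h0 b c hc a]
    push_cast; ring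

lemma prod_even_odd (f : ℕ → R) (h : ℕ) :
    ∏ i ∈ range (2 * h), f i = (∏ i ∈ range h, f (2 * i + 1)) * ∏ i ∈ range h, f (2 * i) := by
  induction h with
  | zero => simp
  | succ h ih =>
    have e : 2 * (h + 1) = 2 * h + 1 + 1 := by ring
    rw [e, Finset.prod_range_succ, Finset.prod_range_succ, ih, Finset.prod_range_succ,
      Finset.prod_range_succ]
    ring

lemma prod_one_add (q : R) (h : ℕ) (hp : (2 * h + 1).Prime) (h0 : qint q (2 * h + 1) = 0) :
    ∏ i ∈ range (2 * h), (1 + q ^ (i + 1)) = 1 := by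
  have hqp := pow_eq_one_of_qint q _ h0
  have h1 : (∏ i ∈ range (2 * h), qint q (i + 1)) * ∏ i ∈ range (2 * h), (1 + q ^ (i + 1)) =
      ∏ i ∈ range (2 * h), qint q (2 * (i + 1)) := by
    rw [← Finset.prod_mul_distrib]
    refine Finset.prod_congr rfl fun i _ => ?_
    have : 2 * (i + 1) = (i + 1) + (i + 1) := by ring
    rw [this, qint_add q (i + 1) (i + 1)]; ring
  have h2 : ∏ i ∈ range (2 * h), qint q (2 * (i + 1)) = ∏ i ∈ range (2 * h), qint q (i + 1) := by
    rw [prod_even_odd (fun i => qint q (i + 1)) h]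
    have e : 2 * h = h + h := by ring
    rw [e, Finset.prod_range_add]
    congr 1
    refine Finset.prod_congr rfl fun i _ => ?_
    have e2 : 2 * (h + i + 1) = (2 * h + 1) + (2 * i + 1) := by ring
    rw [e2, qint_add, h0, hqp]; ring
  rw [h2] at h1
  have hu : IsUnit (∏ i ∈ range (2 * h), qint q (i + 1)) := by
    rw [IsUnit.prod_iff]
    intro i hi
    simp only [Finset.mem_range] at hi
    exact isUnit_qint q _ _ h0 (coprime_of_lt hp (by omega) (by omega))
  exact hu.mul_left_cancel (by rw [h1, mul_one])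

lemma pp_eval (q : R) (h : ℕ) (hp : (2 * h + 1).Prime) (h0 : qint q (2 * h + 1) = 0) :
    (1 + q) * pp q (2 * h) = 2 * q := by
  have hqp := pow_eq_one_of_qint q _ h0
  have h1 := prod_one_add q h hp h0
  unfold pp
  rw [Finset.prod_mul_distrib, h1, mul_one]
  have h2 : (∏ i ∈ range (2 * h), (1 + q ^ i)) * (1 + q ^ (2 * h)) = 2 := by
    rw [← Finset.prod_range_succ, Finset.prod_range_succ', h1]; norm_num
  have h3 : q * (1 + q ^ (2 * h)) = 1 + q := by
    rw [pow_succ] at hqp
    linear_combination hqp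
  linear_combination (-(∏ i ∈ range (2 * h), (1 + q ^ i))) * h3 + q * h2

end quot

section assemble
variable {R : Type*} [CommRing R]

/-- the cofactor of `[p]` in the single term that survives modulo `[p]^2` -/
def tt (q r : R) (m p' : ℕ) : R :=
  gauss q (m + p') (2 * p') * gauss q (2 * p' + 1) (p' + 1) * pp q p' * (r ^ p' * r ^ (p' * m))

lemma main_term (q r : R) (hr : q * r = 1) (m p' : ℕ) :
    ck q r m p' * Ak q r p' (p' + 1) = qint q (p' + 1) * tt q r m p' := by
  rw [Ak_last]
  unfold ck tt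
  have h := qint_ratio_nk' q (2 * p') p'
  have hrr : q ^ (p' * p') * r ^ (p' * p') = 1 := by rw [← mul_pow, hr, one_pow]
  have e : r ^ ((p' + 1) * p') = r ^ (p' * p') * r ^ p' := by rw [← pow_add]; ring_nf
  rw [e]
  linear_combination (gauss q (m + p') (2 * p') * gauss q (2 * p') p' * pp q p' * r ^ (p' * m) * qint q (2 * p' + 1) * r ^ p') * hrr
    - (gauss q (m + p') (2 * p') * pp q p' * r ^ (p' * m) * r ^ p') * h

lemma sum_sub_dvd [IsDomain R] (q r : R) (hr : q * r = 1)
    (hq : ∀ n : ℕ, 1 - q ^ (n + 1) ≠ 0) (m p' : ℕ) (hp : (p' + 1).Prime) :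
    (qint q (p' + 1)) ^ 2 ∣
      (∑ j ∈ range (p' + 1), qint q (2 * j + 1) * r ^ j * (qDelannoy q m j * qDelannoy r m j))
        - qint q (p' + 1) * tt q r m p' := by
  rw [S_formula q r hr hq m (p' + 1) (m + p' + 1) (by omega)]
  have hmem : p' ∈ range (m + p' + 1) := by simp only [Finset.mem_range]; omega
  rw [← Finset.sum_erase_add _ _ hmem, main_term q r hr]
  rw [add_sub_cancel_right]
  apply Finset.dvd_sum
  intro k hk
  exact term_dvd q r hr hq m p' k hp (Finset.ne_of_mem_erase hk)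

lemma tt_map {S : Type*} [CommRing S] (f : R →+* S) (q r : R) (m p' : ℕ) :
    tt (f q) (f r) m p' = f (tt q r m p') := by
  simp [tt, gauss_map, pp_map]

lemma tt_eval (q r : R) (hr : q * r = 1) (m h : ℕ) (hp : (2 * h + 1).Prime)
    (h0 : qint q (2 * h + 1) = 0) :
    (1 + q) * tt q r m (2 * h) = 2 * gauss q (m + 2 * h) (2 * (2 * h)) * (q * q ^ (m + 1)) := by
  have hqp := pow_eq_one_of_qint q _ h0
  have hpp := pp_eval q h hp h0
  have hp0 : 0 < h := by
    rcases Nat.eq_zero_or_pos h with h1 | h1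
    · subst h1; simp at hp; exact absurd hp (by decide)
    · exact h1
  have e1 : gauss q (2 * (2 * h) + 1) (2 * h + 1) = 1 := by
    have e : 2 * (2 * h) + 1 = 2 * h + (2 * h + 1) := by ring
    rw [e, gauss_add_p q _ hp h0, if_pos le_rfl, gauss_eq_zero q (2 * h) (2 * h + 1) (by omega)]
    simp
  have e2 : r ^ (2 * h) * r ^ (2 * h * m) = q ^ (m + 1) := by
    have hrr : q ^ (m + 1) * r ^ (m + 1) = 1 := by rw [← mul_pow, hr, one_pow]
    have hrp : r ^ (2 * h + 1) = 1 := by
      have : q ^ (2 * h + 1) * r ^ (2 * h + 1) = 1 := by rw [← mul_pow, hr, one_pow]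
      rwa [hqp, one_mul] at this
    have h3 : (r ^ (2 * h + 1)) ^ (m + 1) = r ^ (2 * h) * r ^ (2 * h * m) * r ^ (m + 1) := by
      rw [← pow_mul, ← pow_add, ← pow_add]; ring_nf
    rw [hrp, one_pow] at h3
    linear_combination (- (r ^ (2 * h) * r ^ (2 * h * m))) * hrr - q ^ (m + 1) * h3
  unfold tt
  rw [e1, e2]
  linear_combination (gauss q (m + 2 * h) (2 * (2 * h)) * q ^ (m + 1)) * hpp

/-- from congruence of cofactors mod `[p]` to the congruence mod `[p]^2` -/
lemma lift_cong (q r : R) (m h : ℕ) (hp : (2 * h + 1).Prime) (E X : R)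
    (hE : (1 + q) * E = qint q (2 * h + 1) * X)
    (hX : qint q (2 * h + 1) ∣ (1 + q) * tt q r m (2 * h) - X) :
    (qint q (2 * h + 1)) ^ 2 ∣ qint q (2 * h + 1) * tt q r m (2 * h) - E := by
  have hcop : IsCoprime (1 + q) ((qint q (2 * h + 1)) ^ 2) := by
    have : (1 + q) = qint q 2 := by simp [qint, Finset.sum_range_succ]
    rw [this]
    apply IsCoprime.pow_right
    apply qint_coprime q _ _ _ le_rfl
    exact ((Nat.coprime_primes hp Nat.prime_two).mpr (by omega)).symm
  apply hcop.symm.dvd_of_dvd_mul_left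
  obtain ⟨Y, hY⟩ := hX
  refine ⟨Y, ?_⟩
  linear_combination (qint q (2 * h + 1)) * hY - hE

lemma quot_dvd (q x : R) (p : ℕ)
    (hx : (Ideal.Quotient.mk (Ideal.span {qint q p})) x = 0) : qint q p ∣ x := by
  rw [Ideal.Quotient.eq_zero_iff_mem, Ideal.mem_span_singleton] at hx
  exact hx

theorem main_dom [IsDomain R] (q r : R) (hr : q * r = 1)
    (hq : ∀ n : ℕ, 1 - q ^ (n + 1) ≠ 0) (h : ℕ) (hp : (2 * h + 1).Prime) (m : ℕ) :
    ((2 * h + 1) ∣ m → ∃ E : R, (1 - q ^ 2) * E = q * (1 - r ^ (2 * m)) ∧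
      (qint q (2 * h + 1)) ^ 2 ∣
      (∑ j ∈ range (2 * h + 1), qint q (2 * j + 1) * r ^ j * (qDelannoy q m j * qDelannoy r m j)) - E) ∧
    ((2 * h + 1) ∣ m + 1 → ∃ E : R, (1 - q ^ 2) * E = q * (1 - q ^ (2 * m + 2)) ∧
      (qint q (2 * h + 1)) ^ 2 ∣
      (∑ j ∈ range (2 * h + 1), qint q (2 * j + 1) * r ^ j * (qDelannoy q m j * qDelannoy r m j)) - E) ∧
    (¬ (2 * h + 1) ∣ m * (m + 1) →
      (qint q (2 * h + 1)) ^ 2 ∣
      (∑ j ∈ range (2 * h + 1), qint q (2 * j + 1) * r ^ j * (qDelannoy q m j * qDelannoy r m j))) := by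
  have hS := sum_sub_dvd q r hr hq m (2 * h) hp
  set S := ∑ j ∈ range (2 * h + 1), qint q (2 * j + 1) * r ^ j * (qDelannoy q m j * qDelannoy r m j)
  set P := qint q (2 * h + 1) with hP
  have hp0 : 0 < h := by
    rcases Nat.eq_zero_or_pos h with h1 | h1
    · subst h1; simp at hp; exact absurd hp (by decide)
    · exact h1
  let π := Ideal.Quotient.mk (Ideal.span {P})
  have hπ0 : qint (π q) (2 * h + 1) = 0 := by
    rw [qint_map, Ideal.Quotient.eq_zero_iff_mem]
    exact Ideal.mem_span_singleton_self _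
  have hπr : π q * π r = 1 := by rw [← map_mul, hr, map_one]
  have hπq := pow_eq_one_of_qint (π q) _ hπ0
  have hte := tt_eval (π q) (π r) hπr m h hp hπ0
  rw [tt_map] at hte
  refine ⟨?_, ?_, ?_⟩
  · rintro ⟨a, ha⟩
    -- m = p a
    have hq2 : ∀ n, (1 - q ^ 2) * qint (q ^ 2) n = 1 - q ^ (2 * n) := by
      intro n; rw [one_sub_mul_qint, pow_mul]
    have hqq : ∀ n, (1 + q) * qint (q ^ 2) n = qint q (2 * n) := by
      intro n
      rw [qint_mul]
      congr 1
      simp [qint, Finset.sum_range_succ]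
    have hrm : q ^ (2 * m) * r ^ (2 * m) = 1 := by rw [← mul_pow, hr, one_pow]
    refine ⟨-(q * r ^ (2 * m)) * qint (q ^ 2) m, ?_, ?_⟩
    · linear_combination (-(q * r ^ (2 * m))) * hq2 m + q * hrm
    · have h2m : qint q (2 * m) = P * qint (q ^ (2 * h + 1)) (2 * a) := by
        rw [ha, hP, ← qint_mul]; ring_nf
      have hl := lift_cong q r m h hp (-(q * r ^ (2 * m)) * qint (q ^ 2) m)
        (-(q * r ^ (2 * m)) * qint (q ^ (2 * h + 1)) (2 * a)) (by
          linear_combination (-(q * r ^ (2 * m))) * hqq m + (-(q * r ^ (2 * m))) * h2m) (by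
          apply quot_dvd
          change π _ = 0
          rw [map_sub, map_mul, map_add, map_one, hte]
          have e1 : m + 2 * h = a * (2 * h + 1) + 2 * h := by rw [ha]; ring
          have e2 : 2 * (2 * h) = (2 * h + 1) + (2 * h - 1) := by omega
          have e3 : gauss (π q) (2 * h) (2 * h - 1) = qint (π q) (2 * h) := by
            obtain ⟨h', rfl⟩ := Nat.exists_eq_succ_of_ne_zero hp0.ne'
            have e4 : 2 * h'.succ - 1 = 2 * h' + 1 := by omega
            have e5 : 2 * h'.succ = 2 * h' + 1 + 1 := by omega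
            rw [e4, e5, gauss_succ_one]
          have e6 : 1 + π q * qint (π q) (2 * h) = 0 := by
            have := qint_add (π q) 1 (2 * h)
            rw [add_comm 1 (2 * h), hπ0, qint_one, pow_one] at this
            exact this.symm
          have e7 : (π q) ^ m = 1 := by rw [ha, pow_mul, hπq, one_pow]
          have e8 : (π r) ^ (2 * m) = 1 := by
            have : (π q) ^ (2 * m) * (π r) ^ (2 * m) = 1 := by rw [← mul_pow, hπr, one_pow]
            rw [mul_comm 2 m, pow_mul, e7, one_pow, one_mul] at this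
            rw [mul_comm 2 m]; exact this
          have e9 : π (qint (q ^ (2 * h + 1)) (2 * a)) = 2 * a := by
            rw [← qint_map, map_pow, hπq]
            simp [qint]
          rw [e1, e2, gauss_lucas (π q) _ hp hπ0 _ _ (by omega) (by omega), e3, map_mul, map_neg,
            map_mul, map_pow, e8, e9, pow_succ, e7]
          linear_combination (2 * (a : R ⧸ Ideal.span {P}) * π q) * e6)
      have := dvd_add hS hl
      convert this using 1
      ring
  · rintro ⟨a, ha⟩
    have hq2 : ∀ n, (1 - q ^ 2) * qint (q ^ 2) n = 1 - q ^ (2 * n) := by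
      intro n; rw [one_sub_mul_qint, pow_mul]
    have hqq : ∀ n, (1 + q) * qint (q ^ 2) n = qint q (2 * n) := by
      intro n
      rw [qint_mul]
      congr 1
      simp [qint, Finset.sum_range_succ]
    refine ⟨q * qint (q ^ 2) (m + 1), ?_, ?_⟩
    · have e : 2 * m + 2 = 2 * (m + 1) := by ring
      rw [e]
      linear_combination q * hq2 (m + 1)
    · have h2m : qint q (2 * (m + 1)) = P * qint (q ^ (2 * h + 1)) (2 * a) := by
        rw [ha, hP, ← qint_mul]; ring_nf
      have hl := lift_cong q r m h hp (q * qint (q ^ 2) (m + 1))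
        (q * qint (q ^ (2 * h + 1)) (2 * a)) (by
          linear_combination q * hqq (m + 1) + q * h2m) (by
          apply quot_dvd
          change π _ = 0
          rw [map_sub, map_mul, map_add, map_one, hte]
          have e1 : m + 2 * h = a * (2 * h + 1) + (2 * h - 1) := by
            have : a * (2 * h + 1) = m + 1 := by rw [ha]; ring
            omega
          have e2 : 2 * (2 * h) = (2 * h + 1) + (2 * h - 1) := by omega
          have e7 : (π q) ^ (m + 1) = 1 := by rw [ha, pow_mul, hπq, one_pow]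
          have e9 : π (qint (q ^ (2 * h + 1)) (2 * a)) = 2 * a := by
            rw [← qint_map, map_pow, hπq]
            simp [qint]
          rw [e1, e2, gauss_lucas (π q) _ hp hπ0 _ _ (by omega) (by omega), gauss_self, map_mul,
            e9]
          rw [e7]
          ring)
      have := dvd_add hS hl
      convert this using 1
      ring
  · intro hnd
    have hr0 : m % (2 * h + 1) ≠ 0 := by
      intro h0
      exact hnd (Dvd.dvd.mul_right (Nat.dvd_of_mod_eq_zero h0) _)
    have hr1 : m % (2 * h + 1) ≠ 2 * h := by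
      intro h0
      apply hnd
      apply Dvd.dvd.mul_left
      have := Nat.div_add_mod m (2 * h + 1)
      rw [h0] at this
      refine ⟨m / (2 * h + 1) + 1, ?_⟩
      rw [← this]
      have e : ((2 * h + 1) * (m / (2 * h + 1)) + 2 * h) / (2 * h + 1) = m / (2 * h + 1) := by
        rw [this]
      rw [e]; ring
    have hlt : m % (2 * h + 1) < 2 * h + 1 := Nat.mod_lt _ (by omega)
    have hdm := Nat.div_add_mod m (2 * h + 1)
    have hg : gauss (π q) (m + 2 * h) (2 * (2 * h)) = 0 := by
      have e1 : m + 2 * h = (m / (2 * h + 1) + 1) * (2 * h + 1) + (m % (2 * h + 1) - 1) := by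
        have : (m / (2 * h + 1) + 1) * (2 * h + 1) = (2 * h + 1) * (m / (2 * h + 1)) + (2 * h + 1) := by
          ring
        omega
      have e2 : 2 * (2 * h) = (2 * h + 1) + (2 * h - 1) := by omega
      rw [e1, e2, gauss_lucas (π q) _ hp hπ0 _ _ (by omega) (by omega),
        gauss_eq_zero (π q) (m % (2 * h + 1) - 1) (2 * h - 1) (by omega)]
      ring
    have ht : P ∣ tt q r m (2 * h) := by
      apply quot_dvd
      change π _ = 0
      rw [← tt_map]
      unfold tt
      rw [hg]; ring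
    have h2 : P ^ 2 ∣ P * tt q r m (2 * h) := by
      rw [sq]; exact mul_dvd_mul_left P ht
    have := dvd_add hS h2
    simpa using this

end assemble

end Pool.Agent.H94.QDel
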