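import Mathlib

/-! Definitions for the zero-run reduction (problem MP_a78fe8_nt). -/

namespace Pool.Agent.H94.ZeroRuns

/-- The digit `a_{k+1}` (`k ≥ 0`) of the base-`b` expansion of the fractional part of `r`:
`⌊r b^{k+1}⌋ mod b`.  (For `r ∈ [0,1)` this is the usual expansion, the one that is not eventually
all `b-1`.) -/
noncomputable def digit (b : ℕ) (r : ℝ) (k : ℕ) : ℤ := ⌊r * (b : ℝ) ^ (k + 1)⌋ % (b : ℤ)

/-- The subword complexity `p(n)` of the base-`b` expansion `a_1 a_2 ...` of `r`: the number of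
distinct factors `a_{i+1} ... a_{i+n}`, `i ≥ 0`, of length `n`. -/
noncomputable def complexity (b : ℕ) (r : ℝ) (n : ℕ) : ℕ :=
  (Set.range (fun i : ℕ => fun j : Fin n => digit b r (i + (j : ℕ)))).ncard

/-- The irrational algebraic numbers in `[0,1)`. -/
def AlgIrr : Set ℝ := {r | Irrational r ∧ IsAlgebraic ℚ r ∧ 0 ≤ r ∧ r < 1}

end Pool.Agent.H94.ZeroRuns
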