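import Mathlib
import Pool.Agent.H94.ZeroRunsDefs

/-! Proof of the zero-run reduction (problem MP_a78fe8_nt). -/

open Set

namespace Pool.Agent.H94.ZeroRuns

lemma digit_eq (b : ℕ) (hb : 2 ≤ b) (r : ℝ) (k : ℕ) :
    digit b r k = ⌊(b : ℝ) * Int.fract (r * (b : ℝ) ^ k)⌋ := by
  have hb0 : (0 : ℝ) < b := by positivity
  unfold digit
  have h1 : r * (b : ℝ) ^ (k + 1) = (b : ℝ) * Int.fract (r * (b : ℝ) ^ k) + ((b : ℤ) * ⌊r * (b : ℝ) ^ k⌋ : ℤ) := by
    rw [Int.fract]; push_cast; ring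
  rw [h1, Int.floor_add_intCast]
  have h2 : 0 ≤ ⌊(b : ℝ) * Int.fract (r * (b : ℝ) ^ k)⌋ := Int.floor_nonneg.mpr (by positivity)
  have h3 : ⌊(b : ℝ) * Int.fract (r * (b : ℝ) ^ k)⌋ < b := by
    rw [Int.floor_lt]
    have := Int.fract_lt_one (r * (b : ℝ) ^ k)
    push_cast
    nlinarith
  rw [Int.add_mul_emod_self_left]
  exact Int.emod_eq_of_lt h2 h3

lemma digit_nonneg (b : ℕ) (hb : 2 ≤ b) (r : ℝ) (k : ℕ) : 0 ≤ digit b r k := by
  unfold digit; exact Int.emod_nonneg _ (by positivity)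

lemma digit_lt (b : ℕ) (hb : 2 ≤ b) (r : ℝ) (k : ℕ) : digit b r k < b := by
  unfold digit; exact Int.emod_lt_of_pos _ (by positivity)

/-- value of a block -/
def val (b : ℕ) (n : ℕ) (w : Fin n → ℤ) : ℤ := ∑ j : Fin n, w j * (b : ℤ) ^ (n - 1 - (j : ℕ))

lemma val_succ (b n : ℕ) (w : Fin (n + 1) → ℤ) :
    val b (n + 1) w = b * val b n (fun j => w j.castSucc) + w (Fin.last n) := by
  unfold val
  rw [Fin.sum_univ_castSucc, Finset.mul_sum]
  congr 1
  · refine Finset.sum_congr rfl fun j _ => ?_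
    have hj := j.isLt
    have : n + 1 - 1 - (j.castSucc : ℕ) = (n - 1 - (j : ℕ)) + 1 := by
      simp only [Fin.val_castSucc]; omega
    rw [this, pow_succ]; ring
  · simp

lemma val_block (b : ℕ) (hb : 2 ≤ b) (r : ℝ) (i n : ℕ) :
    val b n (fun j : Fin n => digit b r (i + (j : ℕ))) = ⌊(b : ℝ) ^ n * Int.fract (r * (b : ℝ) ^ i)⌋ := by
  induction n with
  | zero =>
    simp [val]
  | succ n ih =>
    rw [val_succ]
    simp only [Fin.val_castSucc, Fin.val_last]
    rw [ih, digit_eq b hb]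
    set x := Int.fract (r * (b : ℝ) ^ i) with hx
    have e1 : Int.fract (r * (b : ℝ) ^ (i + n)) = Int.fract ((b : ℝ) ^ n * x) := by
      rw [Int.fract_eq_fract]
      refine ⟨(b : ℤ) ^ n * ⌊r * (b : ℝ) ^ i⌋, ?_⟩
      rw [hx, Int.fract]; push_cast; ring
    rw [e1]
    have e2 : (b : ℝ) ^ (n + 1) * x = (b : ℝ) * Int.fract ((b : ℝ) ^ n * x) + ((b : ℤ) * ⌊(b : ℝ) ^ n * x⌋ : ℤ) := by
      rw [Int.fract]; push_cast; ring
    rw [e2, Int.floor_add_intCast]
    ring

lemma val_zero (b n : ℕ) (w : Fin n → ℤ) (h : ∀ j, w j = 0) : val b n w = 0 := by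
  unfold val; simp [h]

/-- if the complexity is not full then some block value is missing -/
lemma missing (b : ℕ) (hb : 2 ≤ b) (r : ℝ) (n : ℕ) (h : complexity b r n < b ^ n) :
    ∃ V : ℕ, V < b ^ n ∧ ∀ i : ℕ, ⌊(b : ℝ) ^ n * Int.fract (r * (b : ℝ) ^ i)⌋ ≠ V := by
  by_contra hcon
  push Not at hcon
  apply absurd h
  push Not
  have hfin : (Set.range (fun i : ℕ => fun j : Fin n => digit b r (i + (j : ℕ)))).Finite := by
    apply Set.Finite.subset (Set.Finite.pi' (fun _ : Fin n => Set.finite_Ico (0 : ℤ) b))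
    rintro _ ⟨i, rfl⟩ j
    exact ⟨digit_nonneg b hb r _, digit_lt b hb r _⟩
  have hsub : (fun V : ℕ => (V : ℤ)) '' (Set.Iio (b ^ n)) ⊆
      val b n '' (Set.range (fun i : ℕ => fun j : Fin n => digit b r (i + (j : ℕ)))) := by
    rintro _ ⟨V, hV, rfl⟩
    obtain ⟨i, hi⟩ := hcon V hV
    exact ⟨_, ⟨i, rfl⟩, by rw [val_block b hb]; exact hi⟩
  have h1 := Set.ncard_le_ncard hsub (hfin.image _)
  have h2 := Set.ncard_image_le (f := val b n) hfin
  have h3 : ((fun V : ℕ => (V : ℤ)) '' (Set.Iio (b ^ n))).ncard = b ^ n := by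
    rw [Set.ncard_image_of_injective _ (fun a c h => by exact_mod_cast h), Set.ncard_eq_toFinset_card']
    simp
  unfold complexity
  omega

/-- conversely full complexity makes every block value occur -/
lemma attained (b : ℕ) (hb : 2 ≤ b) (r : ℝ) (n : ℕ) (h : complexity b r n = b ^ n)
    (w : Fin n → ℤ) (hw : ∀ j, 0 ≤ w j ∧ w j < b) : ∃ i : ℕ, ∀ j : Fin n, digit b r (i + (j : ℕ)) = w j := by
  have hfull : (Set.range (fun i : ℕ => fun j : Fin n => digit b r (i + (j : ℕ)))) =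
      {w : Fin n → ℤ | ∀ j, w j ∈ Set.Ico (0 : ℤ) b} := by
    have hfin : ({w : Fin n → ℤ | ∀ j, w j ∈ Set.Ico (0 : ℤ) b}).Finite :=
      Set.Finite.pi' (fun _ : Fin n => Set.finite_Ico (0 : ℤ) b)
    apply Set.eq_of_subset_of_ncard_le _ _ hfin
    · rintro _ ⟨i, rfl⟩ j
      exact ⟨digit_nonneg b hb r _, digit_lt b hb r _⟩
    · have : ({w : Fin n → ℤ | ∀ j, w j ∈ Set.Ico (0 : ℤ) b}) =
          ((Fintype.piFinset (fun _ : Fin n => Finset.Ico (0 : ℤ) b) : Finset (Fin n → ℤ)) : Set (Fin n → ℤ)) := by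
        ext w; simp
      rw [this, Set.ncard_coe_finset, Fintype.card_piFinset]
      simp only [Int.card_Ico, sub_zero, Int.toNat_natCast, Finset.prod_const, Finset.card_univ,
        Fintype.card_fin]
      exact h.ge
  have hmem : w ∈ (Set.range (fun i : ℕ => fun j : Fin n => digit b r (i + (j : ℕ)))) := by
    rw [hfull]; exact fun j => hw j
  obtain ⟨i, hi⟩ := hmem
  exact ⟨i, fun j => congrFun hi j⟩

lemma complexity_le (b : ℕ) (hb : 2 ≤ b) (r : ℝ) (n : ℕ) : complexity b r n ≤ b ^ n := by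
  have hfin : ({w : Fin n → ℤ | ∀ j, w j ∈ Set.Ico (0 : ℤ) b}).Finite :=
      Set.Finite.pi' (fun _ : Fin n => Set.finite_Ico (0 : ℤ) b)
  have hsub : (Set.range (fun i : ℕ => fun j : Fin n => digit b r (i + (j : ℕ)))) ⊆
      {w : Fin n → ℤ | ∀ j, w j ∈ Set.Ico (0 : ℤ) b} := by
    rintro _ ⟨i, rfl⟩ j
    exact ⟨digit_nonneg b hb r _, digit_lt b hb r _⟩
  have h1 := Set.ncard_le_ncard hsub hfin
  have : ({w : Fin n → ℤ | ∀ j, w j ∈ Set.Ico (0 : ℤ) b}).ncard = b ^ n := by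
      have : ({w : Fin n → ℤ | ∀ j, w j ∈ Set.Ico (0 : ℤ) b}) =
          ((Fintype.piFinset (fun _ : Fin n => Finset.Ico (0 : ℤ) b) : Finset (Fin n → ℤ)) : Set (Fin n → ℤ)) := by
        ext w; simp
      rw [this, Set.ncard_coe_finset, Fintype.card_piFinset]
      simp
  rw [this] at h1
  exact h1

theorem zero_runs_iff (b : ℕ) (hb : 2 ≤ b) :
    (∀ r ∈ AlgIrr, ∀ n : ℕ, 1 ≤ n → complexity b r n = b ^ n) ↔
    (∀ r ∈ AlgIrr, ∀ L : ℕ, ∃ i : ℕ, ∀ j < L, digit b r (i + j) = 0) := by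
  constructor
  · intro H r hr L
    rcases Nat.eq_zero_or_pos L with hL | hL
    · subst hL; exact ⟨0, fun j hj => absurd hj (Nat.not_lt_zero _)⟩
    · obtain ⟨i, hi⟩ := attained b hb r L (H r hr L hL) (fun _ => 0) (fun _ => ⟨le_rfl, by positivity⟩)
      exact ⟨i, fun j hj => hi ⟨j, hj⟩⟩
  · intro H r hr n hn
    by_contra hne
    have hlt : complexity b r n < b ^ n := lt_of_le_of_ne (complexity_le b hb r n) hne
    obtain ⟨V, hV, hmiss⟩ := missing b hb r n hlt
    obtain ⟨hirr, halg, h0, h1⟩ := hr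
    -- the rational shift
    set N := n + 2 with hN
    have hbR : (2 : ℝ) ≤ b := by exact_mod_cast hb
    have hbN : (4 : ℝ) ≤ (b : ℝ) ^ N := by
      have : (2 : ℝ) ^ 2 ≤ (b : ℝ) ^ N :=
        (pow_le_pow_left₀ (by norm_num) hbR 2).trans (pow_le_pow_right₀ (by linarith) (by omega))
      linarith
    have hb2 : (4 : ℝ) ≤ (b : ℝ) ^ 2 := by nlinarith
    have hVR : (V : ℝ) + 1 ≤ (b : ℝ) ^ n := by exact_mod_cast hV
    set W : ℝ := (V : ℝ) * (b : ℝ) ^ 2 + 1 with hW
    have hWle : W ≤ (b : ℝ) ^ N - (b : ℝ) ^ 2 + 1 := by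
      rw [hW, hN, pow_add]
      nlinarith
    set s : ℝ := W / ((b : ℝ) ^ N - 1) with hs
    have hd : 0 < (b : ℝ) ^ N - 1 := by linarith
    have hW1 : 1 ≤ W := by rw [hW]; nlinarith [Nat.cast_nonneg (α := ℝ) V]
    have hs1 : W / (b : ℝ) ^ N ≤ s := by
      rw [hs]
      exact div_le_div_of_nonneg_left (by linarith) hd (by linarith)
    have hs2 : s ≤ (W + 1) / (b : ℝ) ^ N := by
      rw [hs, div_le_div_iff₀ hd (by linarith)]
      nlinarith
    -- s b^{Nm} - s is an integer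
    have hper : ∀ m : ℕ, ∃ z : ℤ, s * (b : ℝ) ^ (N * m) = s + z := by
      intro m
      induction m with
      | zero => exact ⟨0, by simp⟩
      | succ m ih =>
        obtain ⟨z, hz⟩ := ih
        refine ⟨z * (b : ℤ) ^ N + ((V : ℤ) * (b : ℤ) ^ 2 + 1), ?_⟩
        have e1 : s * (b : ℝ) ^ (N * (m + 1)) = (s * (b : ℝ) ^ (N * m)) * (b : ℝ) ^ N := by
          rw [mul_add, mul_one, pow_add]; ring
        have e2 : s * (b : ℝ) ^ N = s + W := by
          rw [hs]; field_simp; ring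
        rw [e1, hz, add_mul, e2, hW]
        push_cast; ring
    have hsq : ∃ q : ℚ, (q : ℝ) = s := by
      refine ⟨((V : ℚ) * (b : ℚ) ^ 2 + 1) / ((b : ℚ) ^ N - 1), ?_⟩
      rw [hs, hW]; push_cast; ring
    obtain ⟨q, hq⟩ := hsq
    have hr' : Int.fract (r - s) ∈ AlgIrr := by
      refine ⟨?_, ?_, Int.fract_nonneg _, Int.fract_lt_one _⟩
      · rw [← hq]
        have : Irrational (r - q) := hirr.sub_ratCast q
        rw [Int.fract]
        exact this.sub_intCast _
      · rw [← hq, Int.fract]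
        have h1 : IsAlgebraic ℚ ((q : ℚ) : ℝ) := isAlgebraic_algebraMap (A := ℝ) q
        have h2 : IsAlgebraic ℚ ((⌊r - (q : ℝ)⌋ : ℤ) : ℝ) := isAlgebraic_intCast (R := ℚ) (A := ℝ) _
        exact (halg.sub h1).sub h2
    obtain ⟨i, hi⟩ := H _ hr' (2 * N)
    -- choose the aligned block
    set m := i / N + 1 with hm
    have hNpos : 0 < N := by omega
    have hm1 : i ≤ N * m := by
      have := Nat.div_add_mod i N
      have := Nat.mod_lt i hNpos
      rw [hm, mul_add]; omega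
    have hm2 : N * m ≤ i + N := by
      have := Nat.div_mul_le_self i N
      rw [hm, mul_add, mul_comm N (i / N)]; omega
    have hz : ⌊(b : ℝ) ^ N * Int.fract (Int.fract (r - s) * (b : ℝ) ^ (N * m))⌋ = 0 := by
      rw [← val_block b hb]
      apply val_zero
      intro j
      have hj := j.isLt
      obtain ⟨c, hc⟩ : ∃ c, N * m + (j : ℕ) = i + c ∧ c < 2 * N := ⟨N * m + j - i, by omega, by omega⟩
      rw [hc.1]
      exact hi c hc.2
    obtain ⟨z, hzz⟩ := hper m
    set x := Int.fract (r * (b : ℝ) ^ (N * m)) with hx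
    have hfr : Int.fract (Int.fract (r - s) * (b : ℝ) ^ (N * m)) = Int.fract (x - s) := by
      rw [Int.fract_eq_fract]
      refine ⟨⌊r * (b : ℝ) ^ (N * m)⌋ - ⌊r - s⌋ * (b : ℤ) ^ (N * m) - z, ?_⟩
      rw [hx, Int.fract, Int.fract]
      push_cast
      linear_combination (-1) * hzz
    rw [hfr] at hz
    have hx0 : 0 ≤ x := Int.fract_nonneg _
    have hx1 : x < 1 := Int.fract_lt_one _
    have hsmall : (b : ℝ) ^ N * Int.fract (x - s) < 1 := by
      have := Int.lt_floor_add_one ((b : ℝ) ^ N * Int.fract (x - s))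
      rw [hz] at this
      simpa using this
    have hbNpos : 0 < (b : ℝ) ^ N := by linarith
    have hWN : s ≤ 1 - 2 / (b : ℝ) ^ N := by
      have : (W + 1) / (b : ℝ) ^ N ≤ 1 - 2 / (b : ℝ) ^ N := by
        rw [div_le_iff₀ hbNpos, sub_mul, div_mul_cancel₀ _ hbNpos.ne']
        linarith
      linarith
    have hs0 : 0 < s := lt_of_lt_of_le (by positivity) hs1
    have h2N : 0 < 2 / (b : ℝ) ^ N := by positivity
    rcases le_or_gt s x with hsx | hsx
    · -- x - s in [0,1)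
      have hf : Int.fract (x - s) = x - s := Int.fract_eq_self.mpr ⟨by linarith, by linarith⟩
      rw [hf] at hsmall
      apply hmiss (N * m)
      rw [Int.floor_eq_iff]
      push_cast
      have hbn : 0 < (b : ℝ) ^ n := by positivity
      have e : (b : ℝ) ^ N = (b : ℝ) ^ n * (b : ℝ) ^ 2 := by rw [hN, pow_add]
      have hb2pos : 0 < (b : ℝ) ^ 2 := by positivity
      rw [div_le_iff₀ hbNpos] at hs1
      rw [le_div_iff₀ hbNpos] at hs2
      constructor
      · have : (V : ℝ) * (b : ℝ) ^ 2 ≤ ((b : ℝ) ^ n * x) * (b : ℝ) ^ 2 := by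
          have h3 : s * (b : ℝ) ^ N ≤ x * (b : ℝ) ^ N := mul_le_mul_of_nonneg_right hsx hbNpos.le
          rw [e] at hs1 h3
          nlinarith
        exact le_of_mul_le_mul_right this hb2pos
      · have : ((b : ℝ) ^ n * x) * (b : ℝ) ^ 2 < ((V : ℝ) + 1) * (b : ℝ) ^ 2 := by
          rw [e] at hs2 hsmall
          nlinarith
        exact lt_of_mul_lt_mul_right this hb2pos.le
    · have hf : Int.fract (x - s) = x - s + 1 := by
        have : Int.fract (x - s) = Int.fract (x - s + 1) := by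
          rw [Int.fract_eq_fract]; exact ⟨-1, by push_cast; ring⟩
        rw [this]
        exact Int.fract_eq_self.mpr ⟨by linarith, by linarith⟩
      rw [hf] at hsmall
      have h5 : 2 / (b : ℝ) ^ N ≤ x - s + 1 := by linarith
      rw [div_le_iff₀ hbNpos] at h5
      linarith


lemma val_eq_zero (b : ℕ) (hb : 2 ≤ b) : ∀ (n : ℕ) (w : Fin n → ℤ), (∀ j, 0 ≤ w j) →
    val b n w = 0 → ∀ j, w j = 0
  | 0, _, _, _ => fun j => j.elim0
  | n + 1, w, hw, h => by
    rw [val_succ] at h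
    have h1 : 0 ≤ val b n (fun j => w j.castSucc) :=
      Finset.sum_nonneg fun j _ => mul_nonneg (hw _) (by positivity)
    have h2 := hw (Fin.last n)
    have hb' : (2 : ℤ) ≤ b := by exact_mod_cast hb
    have h3 : val b n (fun j => w j.castSucc) = 0 := by nlinarith
    have h4 : w (Fin.last n) = 0 := by rw [h3] at h; linarith
    have ih := val_eq_zero b hb n (fun j => w j.castSucc) (fun j => hw _) h3
    intro j
    induction j using Fin.lastCases with
    | last => exact h4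
    | cast j => exact ih j

lemma digit_pow_eq (b : ℕ) (hb : 2 ≤ b) (k : ℕ) (hk : 1 ≤ k) (r : ℝ) (i : ℕ) :
    digit (b ^ k) r i = val b k (fun j : Fin k => digit b r (k * i + (j : ℕ))) := by
  have hbk : 2 ≤ b ^ k := le_trans hb (Nat.le_self_pow (by omega) b)
  rw [val_block b hb, digit_eq (b ^ k) hbk]
  push_cast
  rw [← pow_mul]

theorem digit_zero_iff (b : ℕ) (hb : 2 ≤ b) :
    (∀ r ∈ AlgIrr, ∀ L : ℕ, ∃ i : ℕ, ∀ j < L, digit b r (i + j) = 0) ↔
    (∀ r ∈ AlgIrr, ∀ k : ℕ, 1 ≤ k → ∃ i : ℕ, digit (b ^ k) r i = 0) := by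
  constructor
  · intro H r hr k hk
    obtain ⟨i, hi⟩ := H r hr (2 * k)
    refine ⟨i / k + 1, ?_⟩
    have hm1 : i ≤ k * (i / k + 1) := by
      have := Nat.div_add_mod i k
      have := Nat.mod_lt i hk
      rw [mul_add]; omega
    have hm2 : k * (i / k + 1) ≤ i + k := by
      have := Nat.div_mul_le_self i k
      rw [mul_add, mul_comm k (i / k)]; omega
    rw [digit_pow_eq b hb k hk]
    apply val_zero
    intro j
    have hj := j.isLt
    obtain ⟨c, hc⟩ : ∃ c, k * (i / k + 1) + (j : ℕ) = i + c ∧ c < 2 * k :=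
      ⟨k * (i / k + 1) + j - i, by omega, by omega⟩
    rw [hc.1]
    exact hi c hc.2
  · intro H r hr L
    rcases Nat.eq_zero_or_pos L with hL | hL
    · subst hL; exact ⟨0, fun j hj => absurd hj (Nat.not_lt_zero _)⟩
    · obtain ⟨i, hi⟩ := H r hr L hL
      rw [digit_pow_eq b hb L hL] at hi
      have := val_eq_zero b hb L _ (fun j => digit_nonneg b hb r _) hi
      exact ⟨L * i, fun j hj => this ⟨j, hj⟩⟩

end Pool.Agent.H94.ZeroRuns
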